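import Mathlib

/-!
# WR: a simple metric on the ball of `ℝ³` with a non-injective weighted ray transform: definitions
for the analysis part (MP_fd5c23)
-/

noncomputable section

namespace WR

open Set Filter Topology
open scoped ContDiff

/-- `0` outside `(1, 4)`, `1` on `[3/2, 3]` -/
def chi (s : ℝ) : ℝ := Real.smoothTransition (2 * (s - 1)) * Real.smoothTransition (4 - s)

/-- amplitudes `2^(-k³)` -/
def aa (k : ℕ) : ℝ := (1 / 2) ^ (k ^ 3)

/-- frequencies `2^(k²)` -/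
def nn (k : ℕ) : ℝ := 2 ^ (k ^ 2)

/-- the term with index `k` of `osc` -/
def oscT (g : ℝ → ℝ) (m : ℤ) (l k : ℕ) (s p : ℝ) : ℝ :=
  aa k * nn k ^ (-m) * 2 ^ (l * k) * (g (2 ^ k * s) * Real.cos (nn k * p - m * (Real.pi / 2)))

/-- oscillating sums (`s` is proportional to the depth, `p` is the phase): the derivative in `s` is
`osc (deriv g) m (l + 1)`, the derivative in `p` is `osc g (m - 1) l` -/
def osc (g : ℝ → ℝ) (m : ℤ) (l : ℕ) (s p : ℝ) : ℝ := ∑' k : ℕ, oscT g m l k s p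

/-- the sign changing bump in the deeper layers -/
def bmp (r : ℝ) : ℝ :=
  expNegInvGlue (r - 1 / 4) * expNegInvGlue (1 / 2 - r) -
    expNegInvGlue (r - 1 / 2) * expNegInvGlue (1 - r)

/-- the function: `f(x) = FF (r x) (Φ x)`.  It vanishes for `r ≤ 0` and for `r ≥ 1`. -/
def FF (r p : ℝ) : ℝ := osc chi 0 0 (32 * r) p + bmp r

section

variable {V : Type} [NormedAddCommGroup V] [NormedSpace ℝ V]

/-- the function along the orbits: `R (t, z)`, `Ph (t, z)` are depth and phase at time `t` on the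
orbit of `z` -/
def fh (R Ph : ℝ × V → ℝ) (t : ℝ) (z : V) : ℝ := FF (R (t, z)) (Ph (t, z))

/-- integral over the orbit -/
def IA (R Ph : ℝ × V → ℝ) (z : V) : ℝ := ∫ t in (-8 : ℝ)..8, fh R Ph t z

/-- integral of the square -/
def IB (R Ph : ℝ × V → ℝ) (z : V) : ℝ := ∫ t in (-8 : ℝ)..8, fh R Ph t z ^ 2

/-- integral over the positive part -/
def IP (R Ph : ℝ × V → ℝ) (z : V) : ℝ :=
  ∫ t in (-8 : ℝ)..8, expNegInvGlue (fh R Ph t z) * fh R Ph t z

/-- integral over the negative part -/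
def IN (R Ph : ℝ × V → ℝ) (z : V) : ℝ :=
  ∫ t in (-8 : ℝ)..8, expNegInvGlue (-fh R Ph t z) * (-fh R Ph t z)

/-- the hypotheses of the analysis part -/
structure Ana (R Ph : ℝ × V → ℝ) (c : ℝ) (K U : Set V) : Prop where
  smoothR : ContDiff ℝ ∞ R
  smoothP : ContDiff ℝ ∞ Ph
  c_pos : 0 < c
  compact : IsCompact K
  open_U : IsOpen U
  /-- the points of `U` whose base point has depth `≥ 0` are in the interior of `K` -/
  sub : ∀ z ∈ U, 0 ≤ R (0, z) → z ∈ interior K
  /-- the orbits leave the support -/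
  ends : ∀ z ∈ K, R (8, z) < 0 ∧ R (-8, z) < 0
  /-- if the orbit has depth `< 1` everywhere, the phase is not stationary at points of depth `≥ 0` -/
  phase : ∀ z ∈ K, (∀ s ∈ Icc (-8 : ℝ) 8, R (s, z) < 1) → ∀ t ∈ Icc (-8 : ℝ) 8, 0 ≤ R (t, z) →
    c ≤ |fderiv ℝ Ph (t, z) (1, 0)|

end

end WR
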