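import Pool.Agent.helper97.WR.D19

/-! # WR: interface theorem of the analysis part (architect: helper97) -/

noncomputable section

namespace WR

open Set Filter Topology
open scoped ContDiff

variable {V : Type} [NormedAddCommGroup V] [NormedSpace ℝ V] [FiniteDimensional ℝ V]

/-- the function `FF` is smooth -/
theorem FF_smooth : ContDiff ℝ ∞ (fun q : ℝ × ℝ => FF q.1 q.2) := FF_smooth'

theorem FF_zero {r : ℝ} (hr : r ≤ 0) (p : ℝ) : FF r p = 0 := FF_zero' hr p

theorem FF_pos (p : ℝ) : 0 < FF (3 / 8) p := FF_pos' p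

/-- existence of the weight.  `σ`, `α`, `β` depend only on the four integrals, so they are constant
along the orbits. -/
theorem ana_main {R Ph : ℝ × V → ℝ} {c : ℝ} {K U : Set V} (h : Ana R Ph c K U) :
    ∃ σ α β : ℝ → ℝ → ℝ → ℝ → ℝ, ∀ w : V → ℝ,
      (∀ z, w z = 1 - σ (IA R Ph z) (IB R Ph z) (IP R Ph z) (IN R Ph z) * fh R Ph 0 z
        + α (IA R Ph z) (IB R Ph z) (IP R Ph z) (IN R Ph z) * expNegInvGlue (fh R Ph 0 z)
        + β (IA R Ph z) (IB R Ph z) (IP R Ph z) (IN R Ph z) * expNegInvGlue (-fh R Ph 0 z)) →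
      ContDiffOn ℝ ∞ w U ∧ (∀ z ∈ U, 0 < w z) ∧
      (∀ z ∈ K, IA R Ph z
        - σ (IA R Ph z) (IB R Ph z) (IP R Ph z) (IN R Ph z) * IB R Ph z
        + α (IA R Ph z) (IB R Ph z) (IP R Ph z) (IN R Ph z) * IP R Ph z
        - β (IA R Ph z) (IB R Ph z) (IP R Ph z) (IN R Ph z) * IN R Ph z = 0) := by
  exact ana_main' h

end WR
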