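import Pool.Agent.helper71.SN.Fin2

/-!
# Weighted geodesic ray transforms: definitions used in the statement of the theorem (MP_fd5c23)

`KBR.E n = ℝⁿ`, `KBR.M n` is the closed unit ball, `KBR.bM n` the unit sphere; `G : SN.Fld n`
represents the metric `g_x(u, v) = ⟪G x u, v⟫ = SN.gm G x u v`.
-/

noncomputable section

namespace WR

open SN KBR Set Filter Topology
open scoped ContDiff RealInnerProductSpace

variable {n : ℕ}

/-- the unit sphere bundle of `(M, g)` -/
def SMb (G : Fld n) : Set (E n × E n) := {p | p.1 ∈ M n ∧ gm G p.1 p.2 p.2 = 1}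

/-- `w` is a weight: smooth (on a neighbourhood of the unit sphere bundle) and positive on the unit
sphere bundle -/
structure Weight (G : Fld n) (w : E n × E n → ℝ) : Prop where
  smooth : ∃ U, IsOpen U ∧ SMb G ⊆ U ∧ ContDiffOn ℝ ∞ w U
  pos : ∀ p ∈ SMb G, 0 < w p

/-- unit speed geodesics `[0,T] → M` -/
structure UGeo (G : Fld n) (T : ℝ) (c v : ℝ → E n) : Prop extends Geod G T c v where
  unit : ∀ t ∈ Icc 0 T, gm G (c t) (v t) (v t) = 1

/-- every unit speed geodesic reaches the boundary in finite time -/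
def NonTrap (G : Fld n) : Prop :=
  ∀ x ∈ M n, ∀ u, gm G x u u = 1 →
    ∃ T c v, 0 ≤ T ∧ UGeo G T c v ∧ c 0 = x ∧ v 0 = u ∧ c T ∈ bM n

/-- `J`, with derivative `W`, is a Jacobi field along the geodesic `c` with velocity `v`: linearised
geodesic equation (the geodesic equation is `c'' = -Γ_c(c', c')`) -/
structure JacF (Γ : E n → E n → E n → E n) (T : ℝ) (c v J W : ℝ → E n) : Prop where
  d1 : ∀ t ∈ Icc 0 T, HasDerivWithinAt J (W t) (Icc 0 T) t
  d2 : ∀ t ∈ Icc 0 T, HasDerivWithinAt W
    (-(fderiv ℝ (fun p : E n × E n => Γ p.1 p.2 p.2) (c t, v t) (J t, W t))) (Icc 0 T) t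

/-- there are no conjugate points: a Jacobi field which vanishes at both ends of a geodesic is
zero -/
def NoConj (G : Fld n) (Γ : E n → E n → E n → E n) : Prop :=
  ∀ T c v J W, 0 < T → UGeo G T c v → JacF Γ T c v J W → J 0 = 0 → J T = 0 →
    ∀ t ∈ Icc 0 T, J t = 0

/-- the weighted integral of `f` over the geodesic `c : [0,T] → M` with velocity `v` -/
def rayInt (w : E n × E n → ℝ) (f : E n → ℝ) (T : ℝ) (c v : ℝ → E n) : ℝ :=
  ∫ t in (0 : ℝ)..T, w (c t, v t) * f (c t)

end WR
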