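import Pool.Agent.helper79.WR.FDefs

/-! WR-F15.  Proof.  `Good.conj` with `UGeod` (as in the proof of `main_of_geo` in WR/Fin.lean; `geod_iff` in
SN/E2.lean) and `Jac`: `-(cGam L x v v) = gacc L x v`, so
`-(fderiv ℝ (fun p => cGam L p.1 p.2 p.2) (c t, v t) (J t, W t)) = jacc L (c t) (v t) (J t) (W t)`
(`fderiv_neg`/`fderiv_fun_neg`). -/

noncomputable section

namespace WR

open SN KBR Set Filter Topology
open scoped ContDiff RealInnerProductSpace

variable {n : ℕ}

/-- WR-F15: no conjugate points -/
theorem noConj {L : E n → ℝ} (hg : Good L) : NoConj (cG L) (cGam L) := by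
  intro T c v J W hT hgeo hJ h0 h1
  have hu : UGeod L T c v := by
    refine ⟨(geod_iff hg.smooth).1 hgeo.toGeod, fun t ht => ?_⟩
    have h1 := hgeo.unit t ht
    simp only [gm, cG, smul_apply, ContinuousLinearMap.id_apply,
      real_inner_smul_left, real_inner_self_eq_norm_sq] at h1
    exact h1
  have hfun : (fun p : E n × E n => cGam L p.1 p.2 p.2) =
      fun p : E n × E n => -(gacc L p.1 p.2) := by
    funext p
    simp only [cGam, gacc, real_inner_self_eq_norm_sq]
    module
  refine hg.conj T c v J W hT hu ⟨hJ.d1, fun t ht => ?_⟩ h0 h1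
  have h2 := hJ.d2 t ht
  rw [hfun, fderiv_fun_neg, neg_apply, neg_neg] at h2
  exact h2

end WR
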