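import Pool.Agent.helper79.WR.FDefs

/-! WR-F01.  Proof.  As in `SN.stays_delta` (SN/E3.lean), `∃ δ > 0, δ < 1, ∀ x, 1 - δ < ‖x‖ → ‖x‖ < 1 + δ →
0 < 1 + fderiv ℝ L x x` (thickening of the compact sphere; the distance of `x` to `x / ‖x‖` is
`|1 - ‖x‖|`).  `L` is bounded below on the compact ball `‖x‖ ≤ 1`, so `spd L p ≤ 2`, `‖p.1‖ ≤ 1` imply
`‖p.2‖ ≤ K` for some `K > 0`.  Let `b1, b2 : ContDiffBump (0 : E n)` with `rIn = 1 + δ/3`,
`rOut = 1 + δ/2` and `rIn = K`, `rOut = K + 1`; `η p = b1 p.1 * b2 p.2`, `r = 1 - δ/2`.  Even: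
`ContDiffBump.neg`.  Compact support: `η` vanishes outside of the compact product of closed balls
(`HasCompactSupport.intro`).  convex: if `‖p.1‖ ≥ 1 + δ` then `η p = 0`, otherwise both factors are
nonnegative. -/

noncomputable section

namespace WR

open SN KBR Set Filter Topology
open scoped ContDiff RealInnerProductSpace

variable {n : ℕ}

theorem f01_delta {L : E n → ℝ} (hL : ContDiff ℝ ∞ L)
    (hb : ∀ x, ‖x‖ = 1 → 0 < 1 + fderiv ℝ L x x) :
    ∃ δ > 0, δ < 1 ∧ ∀ x : E n, 1 - δ < ‖x‖ → ‖x‖ < 1 + δ → 0 < 1 + fderiv ℝ L x x := by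
  have hF : Continuous (fun x : E n => 1 + fderiv ℝ L x x) :=
    continuous_const.add ((hL.continuous_fderiv (by simp)).clm_apply continuous_id)
  obtain ⟨δ', hδ', hsub⟩ := (isCompact_sphere (0 : E n) 1).exists_thickening_subset_open
    (isOpen_Ioi.preimage hF : IsOpen ((fun x : E n => 1 + fderiv ℝ L x x) ⁻¹' Ioi 0))
    (fun x hx => hb x (by simpa using hx))
  refine ⟨min δ' (1 / 2), lt_min hδ' (by norm_num), (min_le_right _ _).trans_lt (by norm_num),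
    fun x h1 h2 => ?_⟩
  have h3 : min δ' (1 / 2) ≤ δ' := min_le_left _ _
  have h4 : min δ' (1 / 2) ≤ 1 / 2 := min_le_right _ _
  have hx0 : 0 < ‖x‖ := by linarith
  apply hsub
  rw [Metric.mem_thickening_iff]
  refine ⟨‖x‖⁻¹ • x, ?_, ?_⟩
  · rw [mem_sphere_zero_iff_norm, norm_smul, norm_inv, norm_norm, inv_mul_cancel₀ hx0.ne']
  · have e : x - ‖x‖⁻¹ • x = (1 - ‖x‖⁻¹) • x := by rw [sub_smul, one_smul]
    rw [dist_eq_norm, e, norm_smul, Real.norm_eq_abs]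
    have e2 : |1 - ‖x‖⁻¹| * ‖x‖ = |‖x‖ - 1| := by
      calc |1 - ‖x‖⁻¹| * ‖x‖ = |1 - ‖x‖⁻¹| * |‖x‖| := by rw [abs_of_pos hx0]
        _ = |(1 - ‖x‖⁻¹) * ‖x‖| := (abs_mul _ _).symm
        _ = |‖x‖ - 1| := by
          congr 1
          rw [sub_mul, one_mul, inv_mul_cancel₀ hx0.ne']
    rw [e2, abs_lt]
    constructor <;> linarith

/-- WR-F01: existence of the cut off function -/
theorem exists_cut {L : E n → ℝ} (hL : ContDiff ℝ ∞ L)
    (hb : ∀ x, ‖x‖ = 1 → 0 < 1 + fderiv ℝ L x x) : ∃ η r, Cut L η r := by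
  obtain ⟨δ, hδ, hδ1, hpos⟩ := f01_delta hL hb
  obtain ⟨m, hm⟩ := (isCompact_closedBall (0 : E n) 1).bddBelow_image
    (f := L) hL.continuous.continuousOn
  have hm' : ∀ x : E n, ‖x‖ ≤ 1 → m ≤ L x := fun x hx =>
    hm (mem_image_of_mem L (by simpa using hx))
  set K : ℝ := 2 * Real.exp (-m) with hK
  have hK0 : 0 < K := by positivity
  have hKb : ∀ p : E n × E n, ‖p.1‖ ≤ 1 → spd L p ≤ 2 → ‖p.2‖ ≤ K := by
    intro p h1 h2
    have h3 : Real.exp m * ‖p.2‖ ≤ 2 :=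
      (mul_le_mul_of_nonneg_right (Real.exp_le_exp.2 (hm' _ h1)) (norm_nonneg _)).trans h2
    have h4 : Real.exp (-m) * (Real.exp m * ‖p.2‖) = ‖p.2‖ := by
      rw [← mul_assoc, ← Real.exp_add, neg_add_cancel, Real.exp_zero, one_mul]
    rw [← h4, hK, mul_comm 2]
    exact mul_le_mul_of_nonneg_left h3 (Real.exp_pos _).le
  let b1 : ContDiffBump (0 : E n) :=
    { rIn := 1 + δ / 3, rOut := 1 + δ / 2, rIn_pos := by linarith, rIn_lt_rOut := by linarith }
  let b2 : ContDiffBump (0 : E n) :=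
    { rIn := K, rOut := K + 1, rIn_pos := hK0, rIn_lt_rOut := by linarith }
  have hb1 : ∀ x : E n, 1 + δ / 2 ≤ ‖x‖ → b1 x = 0 := fun x hx =>
    b1.zero_of_le_dist (by rw [dist_zero_right]; exact hx)
  have hb2 : ∀ x : E n, K + 1 ≤ ‖x‖ → b2 x = 0 := fun x hx =>
    b2.zero_of_le_dist (by rw [dist_zero_right]; exact hx)
  refine ⟨fun p => b1 p.1 * b2 p.2, 1 - δ / 2, ⟨?_, ?_, ?_, ?_, ?_, ?_, ?_⟩⟩
  · exact (b1.contDiff.comp contDiff_fst).mul (b2.contDiff.comp contDiff_snd)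
  · refine HasCompactSupport.intro (K := Metric.closedBall (0 : E n) (1 + δ / 2) ×ˢ
      Metric.closedBall (0 : E n) (K + 1))
      ((isCompact_closedBall _ _).prod (isCompact_closedBall _ _)) ?_
    intro p hp
    by_cases h1 : ‖p.1‖ ≤ 1 + δ / 2
    · have h2 : ¬ ‖p.2‖ ≤ K + 1 := by
        intro h2
        exact hp ⟨by simpa using h1, by simpa using h2⟩
      show b1 p.1 * b2 p.2 = 0
      rw [hb2 _ (not_le.1 h2).le, mul_zero]
    · show b1 p.1 * b2 p.2 = 0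
      rw [hb1 _ (not_le.1 h1).le, zero_mul]
  · intro p
    exact mul_nonneg b1.nonneg b2.nonneg
  · intro x v
    show b1 x * b2 (-v) = b1 x * b2 v
    rw [b2.neg]
  · intro p h1 h2
    show b1 p.1 * b2 p.2 = 1
    have h3 : b1 p.1 = 1 := b1.one_of_mem_closedBall (by
      rw [Metric.mem_closedBall, dist_zero_right]
      show ‖p.1‖ ≤ 1 + δ / 3
      linarith)
    have h4 : b2 p.2 = 1 := b2.one_of_mem_closedBall (by
      rw [Metric.mem_closedBall, dist_zero_right]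
      exact hKb p h1 h2)
    rw [h3, h4, mul_one]
  · linarith
  · intro p h1
    show 0 ≤ b1 p.1 * b2 p.2 * (1 + fderiv ℝ L p.1 p.1)
    by_cases h2 : ‖p.1‖ < 1 + δ
    · exact mul_nonneg (mul_nonneg b1.nonneg b2.nonneg) (hpos _ (by linarith) h2).le
    · rw [hb1 _ (by linarith), zero_mul, zero_mul]

end WR
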