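import Pool.Agent.helper79.WR.FDefs
import Pool.Agent.helper71.SN.FL2

/-! WR-F02.  Proof.  `X p := η p • fld L p` (`SN.FL2Aux.fld`, `contDiff_fld`) is smooth with compact support:
`SN.smooth_flow` (SN/FL1.lean) gives `φ` with `zero`, `smooth`, the derivative (hence `d1`, `d2`,
componentwise as in SN/FL2.lean) and the last clause gives `uniq` (`X (c t, v t) = (v t, gacc ..)` where
`η = 1`).  `add` and `rev`: `X` is Lipschitz (`ContDiff.lipschitzWith_of_hasCompactSupport`, see
`SN.FL1.lip`), use `ODE_solution_unique_univ`; for `rev` the curve `t ↦ S (φ (-t) (S z))` with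
`S (x, v) = (x, -v)` satisfies the same equation, since `η (x, -v) = η (x, v)` and
`gacc L x (-v) = gacc L x v` (`SN.e4_gacc_smul` with `a = -1`, or unfold). -/

noncomputable section

namespace WR

open SN KBR Set Filter Topology
open scoped ContDiff RealInnerProductSpace

variable {n : ℕ}

/-- WR-F02: existence of the flow -/
theorem exists_flw {L : E n → ℝ} (hL : ContDiff ℝ ∞ L) {η : E n × E n → ℝ} {r : ℝ}
    (hη : Cut L η r) : ∃ φ, Flw L η φ := by
  set X : E n × E n → E n × E n := fun p => η p • FL2Aux.fld L p with hX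
  have hXs : ContDiff ℝ ∞ X := hη.smooth.smul (FL2Aux.contDiff_fld hL)
  have hXc : HasCompactSupport X := hη.cs.smul_right
  obtain ⟨φ, h0, h1, h2, h3, h4⟩ := smooth_flow X hXs hXc
  obtain ⟨K, hK⟩ := FL1.lip hXs hXc
  refine ⟨φ, ⟨h2, h0, ?_, ?_, ?_, ?_, ?_⟩⟩
  · intro s t z
    have h5 := KBRA.curve_unique hK (f := fun s => φ (s + t) z) (g := fun s => φ s (φ t z))
      (fun s => (h1 (s + t) z).comp_add_const s t) (fun s => h1 s (φ t z)) (t₀ := 0)
      (by simp [h0])
    exact congrFun h5 s
  · intro t x v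
    have h6 : ∀ s, HasDerivAt (fun s => ((φ (-s) (x, v)).1, -(φ (-s) (x, v)).2))
        (X ((φ (-s) (x, v)).1, -(φ (-s) (x, v)).2)) s := by
      intro s
      have h7 := (h1 (-s) (x, v)).scomp s (hasDerivAt_neg s)
      have h8 := (ContinuousLinearMap.fst ℝ (E n) (E n)).hasFDerivAt.comp_hasDerivAt s h7
      have h9 := (ContinuousLinearMap.snd ℝ (E n) (E n)).hasFDerivAt.comp_hasDerivAt s h7
      have h10 := h8.prodMk h9.neg
      refine h10.congr_deriv ?_
      set p := φ (-s) (x, v) with hp
      have h11 : gacc L p.1 (-p.2) = gacc L p.1 p.2 := by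
        simp only [gacc, map_neg, norm_neg, mul_neg, neg_neg, neg_smul, smul_neg]
      simp only [hX, FL2Aux.fld, hη.even, h11]
      simp
    have h12 := KBRA.curve_unique hK (f := fun s => φ s (x, -v))
      (g := fun s => ((φ (-s) (x, v)).1, -(φ (-s) (x, v)).2))
      (fun s => h1 s (x, -v)) h6 (t₀ := 0) (by simp [h0])
    have h13 := congrFun h12 (-t)
    simp only [neg_neg] at h13
    exact h13
  · intro t z
    exact (ContinuousLinearMap.fst ℝ (E n) (E n)).hasFDerivAt.comp_hasDerivAt t (h1 t z)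
  · intro t z
    exact (ContinuousLinearMap.snd ℝ (E n) (E n)).hasFDerivAt.comp_hasDerivAt t (h1 t z)
  · intro T c v hcv hc hv t ht
    have h5 : ∀ s ∈ Icc 0 T, HasDerivWithinAt (fun s => (c s, v s)) (X (c s, v s)) (Icc 0 T) s := by
      intro s hs
      have h6 : HasDerivWithinAt (fun s => (c s, v s)) (v s, gacc L (c s) (v s)) (Icc 0 T) s :=
        (hc s hs).prodMk (hv s hs)
      refine h6.congr_deriv ?_
      simp only [hX, FL2Aux.fld, hcv s hs, one_smul]
    exact (h4 T (fun s => (c s, v s)) h5 t ht).symm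

end WR
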