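import Pool.Agent.helper79.WR.FDefs

/-! WR-F03.  Proof.  As `SN.e4_speed` (SN/E4.lean): the derivative of `exp (2 L x) ‖v‖²` along the orbit is
`η` times the one of the geodesic equation, `= 0`; so `(spd L (φ t z))²` is constant
(`is_const_of_deriv_eq_zero` on all of `ℝ`), and `spd ≥ 0`. -/

noncomputable section

namespace WR

open SN KBR Set Filter Topology
open scoped ContDiff RealInnerProductSpace

variable {n : ℕ}

theorem F03_spd_sq (L : E n → ℝ) (p : E n × E n) :
    spd L p ^ 2 = Real.exp (2 * L p.1) * ‖p.2‖ ^ 2 := by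
  unfold spd
  rw [mul_pow, ← Real.exp_nat_mul]
  norm_num

theorem F03_deriv {L : E n → ℝ} (hL : ContDiff ℝ ∞ L) {η : E n × E n → ℝ}
    {φ : ℝ → E n × E n → E n × E n} (h : Flw L η φ) (t : ℝ) (z : E n × E n) :
    HasDerivAt (fun s => Real.exp (2 * L (φ s z).1) * ‖(φ s z).2‖ ^ 2) 0 t := by
  have hd : HasFDerivAt L (fderiv ℝ L (φ t z).1) (φ t z).1 :=
    (hL.contDiffAt.differentiableAt (by simp)).hasFDerivAt
  have h3 : HasDerivAt (fun s => L (φ s z).1) (fderiv ℝ L (φ t z).1 (η (φ t z) • (φ t z).2)) t :=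
    hd.comp_hasDerivAt t (h.d1 t z)
  have h4 := (h3.const_mul 2).exp
  have h5 := (h.d2 t z).norm_sq
  have h6 := h4.mul h5
  refine h6.congr_deriv ?_
  have h7 : ⟪(φ t z).2, gacc L (φ t z).1 (φ t z).2⟫ =
      -(fderiv ℝ L (φ t z).1 (φ t z).2) * ‖(φ t z).2‖ ^ 2 := by
    unfold gacc
    rw [inner_add_right, inner_smul_right, inner_smul_right, real_inner_self_eq_norm_sq,
      real_inner_comm, inner_gradient_left]
    ring
  rw [inner_smul_right, h7, map_smul, smul_eq_mul]
  ring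

/-- WR-F03: the speed is constant along the orbits -/
theorem Flw.spd_eq {L : E n → ℝ} (hL : ContDiff ℝ ∞ L) {η : E n × E n → ℝ}
    {φ : ℝ → E n × E n → E n × E n} (h : Flw L η φ) (t : ℝ) (z : E n × E n) :
    spd L (φ t z) = spd L z := by
  have h1 : ∀ s, HasDerivAt (fun s => Real.exp (2 * L (φ s z).1) * ‖(φ s z).2‖ ^ 2) 0 s :=
    fun s => F03_deriv hL h s z
  have h2 := is_const_of_deriv_eq_zero (fun s => (h1 s).differentiableAt) (fun s => (h1 s).deriv) t 0
  simp only [← F03_spd_sq, h.zero] at h2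
  have hnn : ∀ p : E n × E n, 0 ≤ spd L p := fun p => by
    unfold spd
    positivity
  exact (pow_left_inj₀ (hnn _) (hnn _) two_ne_zero).1 h2

end WR
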