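import Pool.Agent.helper79.WR.FDefs

/-! WR-F04.  author: helper76.  Proof.  Write `(x, v) = φ t z`, `h t = ⟪x, v⟫`.  `h' = η (‖v‖² + ⟪x, gacc L x v⟫) =
η ‖v‖² (1 + fderiv ℝ L x x) - 2 η (fderiv ℝ L x v) h` (`⟪x, gradient L x⟫ = fderiv ℝ L x x`, see SN/E3.lean).
With the integrating factor `m t = exp (∫ s in 0..t, 2 η (fderiv ℝ L x v))` (continuous integrand):
`(m h)' = m η ‖v‖² (1 + fderiv ℝ L x x) ≥ 0` as long as `‖x‖ ≥ r` (`Cut.convex`).  Moreover
`(‖x‖²)' = 2 η h`.  So if `‖x‖ ≥ r` on `[0, b]` then `h ≥ 0` on `[0, b]`, then `‖x‖²` is monotone on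
`[0, b]` and `‖x‖ ≥ 1` there.  The set of `b ≥ 0` with `‖x‖ ≥ 1` on `[0, b]` is closed, contains `0` and
is open to the right because `‖x‖ > r` on a slightly larger interval (`IsClosed.Icc_subset_of_forall_exists_gt`
or an infimum argument). -/

noncomputable section

namespace WR

open SN KBR Set Filter Topology
open scoped ContDiff RealInnerProductSpace

variable {n : ℕ}

private theorem f04_cont {φ : ℝ → E n × E n → E n × E n} {L : E n → ℝ} {η : E n × E n → ℝ}
    (h : Flw L η φ) (z : E n × E n) : Continuous fun s => φ s z := by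
  have h1 : Continuous (fun p : ℝ × (E n × E n) => φ p.1 p.2) := h.smooth.continuous
  exact h1.comp (f := fun s : ℝ => (s, z)) (by fun_prop)

/-- WR-F04: an orbit outside of the ball which moves outwards does not return -/
theorem Flw.noret {L : E n → ℝ} (hL : ContDiff ℝ ∞ L) {η : E n × E n → ℝ} {r : ℝ}
    {φ : ℝ → E n × E n → E n × E n} (hη : Cut L η r) (h : Flw L η φ) {z : E n × E n}
    (h1 : 1 ≤ ‖z.1‖) (h2 : 0 ≤ ⟪z.1, z.2⟫) {t : ℝ} (ht : 0 ≤ t) : 1 ≤ ‖(φ t z).1‖ := by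
  by_contra hcon
  push Not at hcon
  have hφc : Continuous fun s => φ s z := f04_cont h z
  set x : ℝ → E n := fun s => (φ s z).1 with hxdef
  set v : ℝ → E n := fun s => (φ s z).2 with hvdef
  have hx : ∀ s, HasDerivAt x (η (φ s z) • v s) s := fun s => h.d1 s z
  have hv : ∀ s, HasDerivAt v (η (φ s z) • gacc L (x s) (v s)) s := fun s => h.d2 s z
  have hxc : Continuous x := hφc.fst
  have hvc : Continuous v := hφc.snd
  have hηc : Continuous fun s => η (φ s z) := hη.smooth.continuous.comp hφc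
  have hfc : Continuous fun s => fderiv ℝ L (x s) (v s) :=
    ((hL.continuous_fderiv (by simp)).comp hxc).clm_apply hvc
  set a : ℝ → ℝ := fun s => 2 * η (φ s z) * fderiv ℝ L (x s) (v s) with hadef
  have hac : Continuous a := (continuous_const.mul hηc).mul hfc
  set A : ℝ → ℝ := fun s => ∫ u in (0 : ℝ)..s, a u with hAdef
  have hA : ∀ s, HasDerivAt A (a s) s := fun s => (hac.integral_hasStrictDerivAt 0 s).hasDerivAt
  have hh : ∀ s, HasDerivAt (fun s => ⟪x s, v s⟫)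
      (η (φ s z) * ‖v s‖ ^ 2 * (1 + fderiv ℝ L (x s) (x s)) - a s * ⟪x s, v s⟫) s := by
    intro s
    have h3 := (hx s).inner ℝ (hv s)
    have hgrad : ⟪x s, gradient L (x s)⟫ = fderiv ℝ L (x s) (x s) := by
      rw [real_inner_comm]
      exact InnerProductSpace.toDual_symm_apply
    have h4 : ⟪x s, η (φ s z) • gacc L (x s) (v s)⟫ + ⟪η (φ s z) • v s, v s⟫ =
        η (φ s z) * ‖v s‖ ^ 2 * (1 + fderiv ℝ L (x s) (x s)) - a s * ⟪x s, v s⟫ := by
      unfold gacc
      rw [inner_smul_right, inner_add_right, inner_smul_right, inner_smul_right,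
        real_inner_smul_left, hgrad, real_inner_self_eq_norm_sq]
      simp only [hadef]
      ring
    rw [h4] at h3
    exact h3
  set g : ℝ → ℝ := fun s => Real.exp (A s) * ⟪x s, v s⟫ with hgdef
  have hg : ∀ s, HasDerivAt g
      (Real.exp (A s) * (η (φ s z) * ‖v s‖ ^ 2 * (1 + fderiv ℝ L (x s) (x s)))) s := by
    intro s
    have h3 := (hA s).exp.mul (hh s)
    have h4 : Real.exp (A s) * a s * ⟪x s, v s⟫ + Real.exp (A s) *
        (η (φ s z) * ‖v s‖ ^ 2 * (1 + fderiv ℝ L (x s) (x s)) - a s * ⟪x s, v s⟫) =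
        Real.exp (A s) * (η (φ s z) * ‖v s‖ ^ 2 * (1 + fderiv ℝ L (x s) (x s))) := by ring
    rw [h4] at h3
    exact h3
  have hN : ∀ s, HasDerivAt (fun s => ‖x s‖ ^ 2) (2 * (η (φ s z) * ⟪x s, v s⟫)) s := by
    intro s
    have h3 := (hx s).norm_sq
    rw [inner_smul_right] at h3
    exact h3
  have hz0 : φ 0 z = z := h.zero z
  -- first time at which the norm is small
  set c : ℝ := max r ‖x t‖ with hcdef
  have hc1 : c < 1 := max_lt hη.r_lt hcon
  have hcpt : IsCompact {s : ℝ | s ∈ Icc 0 t ∧ ‖x s‖ ≤ c} :=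
    isCompact_Icc.inter_right (isClosed_le hxc.norm continuous_const)
  obtain ⟨b, ⟨hb1, hb2⟩, hb3⟩ := hcpt.exists_isLeast ⟨t, ⟨ht, le_rfl⟩, le_max_right _ _⟩
  have hout : ∀ s ∈ Ioo 0 b, r ≤ ‖x s‖ := by
    intro s hs
    by_contra hlt
    push Not at hlt
    have h3 : b ≤ s := hb3 ⟨⟨hs.1.le, (hs.2.le.trans hb1.2)⟩, hlt.le.trans (le_max_left _ _)⟩
    exact absurd hs.2 (not_lt.2 h3)
  have hgm : MonotoneOn g (Icc 0 b) := by
    refine monotoneOn_of_deriv_nonneg (convex_Icc 0 b)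
      (fun s _ => (hg s).continuousAt.continuousWithinAt)
      (fun s _ => (hg s).differentiableAt.differentiableWithinAt) fun s hs => ?_
    rw [interior_Icc] at hs
    rw [(hg s).deriv]
    have h3 := hη.convex (φ s z) (hout s hs)
    have h4 : 0 ≤ ‖v s‖ ^ 2 := by positivity
    have h5 : η (φ s z) * ‖v s‖ ^ 2 * (1 + fderiv ℝ L (x s) (x s)) =
        ‖v s‖ ^ 2 * (η (φ s z) * (1 + fderiv ℝ L (φ s z).1 (φ s z).1)) := by
      simp only [hxdef]; ring
    rw [h5]
    exact mul_nonneg (Real.exp_pos _).le (mul_nonneg h4 h3)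
  have hg0 : 0 ≤ g 0 := by
    simp only [hgdef, hxdef, hvdef, hz0]
    exact mul_nonneg (Real.exp_pos _).le h2
  have hhpos : ∀ s ∈ Icc 0 b, 0 ≤ ⟪x s, v s⟫ := by
    intro s hs
    have h3 : g 0 ≤ g s := hgm ⟨le_rfl, hb1.1⟩ hs hs.1
    have h4 : 0 ≤ g s := hg0.trans h3
    exact nonneg_of_mul_nonneg_right h4 (Real.exp_pos _)
  have hNm : MonotoneOn (fun s => ‖x s‖ ^ 2) (Icc 0 b) := by
    refine monotoneOn_of_deriv_nonneg (convex_Icc 0 b)
      (fun s _ => (hN s).continuousAt.continuousWithinAt)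
      (fun s _ => (hN s).differentiableAt.differentiableWithinAt) fun s hs => ?_
    rw [interior_Icc] at hs
    rw [(hN s).deriv]
    have h3 := hhpos s ⟨hs.1.le, hs.2.le⟩
    have h4 := hη.nonneg (φ s z)
    positivity
  have h3 : ‖x 0‖ ^ 2 ≤ ‖x b‖ ^ 2 := hNm ⟨le_rfl, hb1.1⟩ ⟨hb1.1, le_rfl⟩ hb1.1
  have h4 : ‖x 0‖ ≤ ‖x b‖ := le_of_sq_le_sq h3 (norm_nonneg _)
  have h5 : x 0 = z.1 := by simp only [hxdef, hz0]
  rw [h5] at h4
  linarith

end WR
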