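import Pool.Agent.helper79.WR.F04

/-! WR-F05.  Proof.  Let `0 ≤ s ≤ t` with `‖x(s)‖ > 1`.  Let `a = sSup {u ∈ [0, s] | ‖x(u)‖ ≤ 1}`; then
`‖x(a)‖ ≤ 1`, `a < s` and `‖x‖ > 1` on `(a, s]`.  By the mean value theorem for `‖x‖²` on `[a, s]`
there is `u ∈ (a, s)` with `(‖x‖²)'(u) = 2 η ⟪x(u), v(u)⟫ > 0`, so `⟪x(u), v(u)⟫ > 0` (`η ≥ 0`) and
`‖x(u)‖ > 1`.  By `Flw.noret` for `φ u z` and the group law, `‖x(t)‖ ≥ 1`.  Contradiction. -/

noncomputable section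

namespace WR

open SN KBR Set Filter Topology
open scoped ContDiff RealInnerProductSpace

variable {n : ℕ}

/-- WR-F05: the times at which the orbit is in the ball form an interval -/
theorem Flw.conv {L : E n → ℝ} (hL : ContDiff ℝ ∞ L) {η : E n × E n → ℝ} {r : ℝ}
    {φ : ℝ → E n × E n → E n × E n} (hη : Cut L η r) (h : Flw L η φ) {z : E n × E n}
    (h1 : ‖z.1‖ ≤ 1) {t : ℝ} (h2 : ‖(φ t z).1‖ < 1) : ∀ s ∈ Icc 0 t, ‖(φ s z).1‖ ≤ 1 := by
  intro s hs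
  by_contra hcon
  push Not at hcon
  have hd : ∀ u : ℝ, HasDerivAt (fun u => ‖(φ u z).1‖ ^ 2)
      (2 * (η (φ u z) * ⟪(φ u z).1, (φ u z).2⟫)) u := by
    intro u
    have h3 := (h.d1 u z).norm_sq
    rwa [real_inner_smul_right] at h3
  have hc : Continuous (fun u => ‖(φ u z).1‖ ^ 2) :=
    continuous_iff_continuousAt.2 fun u => (hd u).continuousAt
  have hK : IsCompact {u | u ∈ Icc 0 s ∧ ‖(φ u z).1‖ ^ 2 ≤ 1} :=
    isCompact_Icc.inter_right (isClosed_le hc continuous_const)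
  have hne : {u | u ∈ Icc 0 s ∧ ‖(φ u z).1‖ ^ 2 ≤ 1}.Nonempty := by
    refine ⟨0, ⟨le_rfl, hs.1⟩, ?_⟩
    show ‖(φ 0 z).1‖ ^ 2 ≤ 1
    rw [h.zero]
    have := norm_nonneg z.1
    nlinarith
  obtain ⟨a, ⟨⟨ha0, has⟩, ha1⟩, hamax⟩ := hK.exists_isGreatest hne
  have hs1 : 1 < ‖(φ s z).1‖ ^ 2 := by nlinarith
  have has' : a < s := by
    rcases has.lt_or_eq with h4 | h4
    · exact h4
    · exfalso; rw [h4] at ha1; linarith
  obtain ⟨u, hu, hu'⟩ := exists_hasDerivAt_eq_slope (fun u => ‖(φ u z).1‖ ^ 2) _ has'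
    hc.continuousOn (fun u _ => hd u)
  have h5 : 0 < 2 * (η (φ u z) * ⟪(φ u z).1, (φ u z).2⟫) := by
    rw [hu']
    apply div_pos
    · linarith
    · linarith
  have h6 : 0 ≤ ⟪(φ u z).1, (φ u z).2⟫ := by
    by_contra h7
    push Not at h7
    have := hη.nonneg (φ u z)
    nlinarith
  have h8 : 1 ≤ ‖(φ u z).1‖ := by
    by_contra h9
    push Not at h9
    have h10 : ‖(φ u z).1‖ ^ 2 ≤ 1 := by
      have := norm_nonneg (φ u z).1
      nlinarith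
    have := hamax (show u ∈ {u | u ∈ Icc 0 s ∧ ‖(φ u z).1‖ ^ 2 ≤ 1} from
      ⟨⟨ha0.trans hu.1.le, hu.2.le⟩, h10⟩)
    exact absurd this (not_le.2 hu.1)
  have h11 := Flw.noret hL hη h h8 h6 (t := t - u) (by linarith [hu.2, hs.2])
  rw [← h.add] at h11
  have h12 : t - u + u = t := by ring
  rw [h12] at h11
  linarith

end WR
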