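import Pool.Agent.helper79.WR.F03
import Pool.Agent.helper79.WR.F05

/-! WR-F06.  Proof.  By `Flw.rev` (with `(z.1, -z.2) ∈ KK L`) it is enough to treat `t ≥ 8`.  Suppose
`‖x(t)‖ < 1`.  By `Flw.conv` `‖x(s)‖ ≤ 1` for `s ∈ [0, t]`, and the speed is `s₀ = spd L z ∈ [1/2, 2]`
(`Flw.spd_eq`), so `η = 1` (`Cut.one`) and `c s = x(s)`, `v s = v(s)` is a geodesic `[0, t] → M` with
constant speed `s₀`.  Rescale to unit speed: `UGeod L (s₀ * t) (fun s => c (s / s₀))
(fun s => s₀⁻¹ • v (s / s₀))` (see `SN.e4_ugeod`, `SN.e4_gacc_smul`, `SN.e4_rescale` in SN/E4.lean).  `Good.len` gives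
`4 ≤ s₀ * t < π`, a contradiction (`Real.pi_lt_four` or `Real.pi_le_four`). -/

noncomputable section

namespace WR

open SN KBR Set Filter Topology
open scoped ContDiff RealInnerProductSpace

variable {n : ℕ}

private theorem f06_spd_sq (L : E n → ℝ) (p : E n × E n) :
    Real.exp (2 * L p.1) * ‖p.2‖ ^ 2 = spd L p ^ 2 := by
  unfold spd
  rw [mul_pow, ← Real.exp_nat_mul]
  norm_num

private theorem f06_resc {F : Type*} [NormedAddCommGroup F] [NormedSpace ℝ F] {f : ℝ → F} {f' : F}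
    {s t : ℝ} (h : HasDerivAt f f' (t / s)) : HasDerivAt (fun r => f (r / s)) (s⁻¹ • f') t := by
  have h1 : HasDerivAt (fun r : ℝ => r / s) (s⁻¹) t := by
    have := (hasDerivAt_id t).div_const s
    simpa using this
  exact HasDerivAt.scomp t h h1

private theorem f06_pos {L : E n → ℝ} (hg : Good L) {η : E n × E n → ℝ} {r : ℝ}
    {φ : ℝ → E n × E n → E n × E n} (hη : Cut L η r) (h : Flw L η φ) {z : E n × E n}
    (hz : z ∈ KK L) {t : ℝ} (ht : 8 ≤ t) : 1 ≤ ‖(φ t z).1‖ := by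
  by_contra hcon
  rw [not_le] at hcon
  obtain ⟨hz1, hz2, hz3⟩ := hz
  have hconv := h.conv hg.smooth hη hz1 hcon
  have hs0 : 0 < spd L z := by linarith
  have hspd : ∀ s, spd L (φ s z) = spd L z := fun s => h.spd_eq hg.smooth s z
  have hone : ∀ s ∈ Icc 0 t, η (φ s z) = 1 := fun s hs =>
    hη.one _ (hconv s hs) (by rw [hspd]; exact hz3)
  have hmem : ∀ r ∈ Icc 0 (spd L z * t), r / spd L z ∈ Icc 0 t := by
    intro r hr
    exact ⟨div_nonneg hr.1 hs0.le, by rw [div_le_iff₀ hs0]; linarith [hr.2, mul_comm (spd L z) t]⟩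
  have hU : UGeod L (spd L z * t) (fun r => (φ (r / spd L z) z).1)
      (fun r => (spd L z)⁻¹ • (φ (r / spd L z) z).2) := by
    refine ⟨⟨?_, ?_, ?_⟩, ?_⟩
    · intro r hr
      have := hconv _ (hmem r hr)
      simpa [M] using this
    · intro r hr
      have h1 := h.d1 (r / spd L z) z
      rw [hone _ (hmem r hr), one_smul] at h1
      exact (f06_resc (f := fun s => (φ s z).1) h1).hasDerivWithinAt
    · intro r hr
      have h1 := h.d2 (r / spd L z) z
      rw [hone _ (hmem r hr), one_smul] at h1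
      have h2 := (f06_resc (f := fun s => (φ s z).2) h1).const_smul (spd L z)⁻¹
      refine (h2.congr_deriv ?_).hasDerivWithinAt
      rw [e4_gacc_smul, smul_smul, sq]
    · intro r hr
      have h1 := f06_spd_sq L (φ (r / spd L z) z)
      rw [hspd] at h1
      rw [norm_smul, mul_pow, norm_inv, Real.norm_eq_abs, inv_pow, sq_abs, mul_left_comm, h1,
        inv_mul_cancel₀ (by positivity)]
  have hlen := hg.len _ _ _ hU
  have h4 : 4 ≤ spd L z * t := by nlinarith
  linarith [Real.pi_le_four]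

/-- WR-F06: the orbits leave the ball -/
theorem Flw.exit {L : E n → ℝ} (hg : Good L) {η : E n × E n → ℝ} {r : ℝ}
    {φ : ℝ → E n × E n → E n × E n} (hη : Cut L η r) (h : Flw L η φ) {z : E n × E n}
    (hz : z ∈ KK L) {t : ℝ} (ht : 8 ≤ |t|) : 1 ≤ ‖(φ t z).1‖ := by
  rcases le_or_gt 0 t with h0 | h0
  · rw [abs_of_nonneg h0] at ht
    exact f06_pos hg hη h hz ht
  · rw [abs_of_neg h0] at ht
    have hz' : ((z.1, -z.2) : E n × E n) ∈ KK L := by
      obtain ⟨h1, h2, h3⟩ := hz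
      refine ⟨h1, ?_, ?_⟩
      · simpa [spd] using h2
      · simpa [spd] using h3
    have h1 := f06_pos hg hη h hz' ht
    have h2 := h.rev (-t) z.1 (-z.2)
    rw [neg_neg, neg_neg] at h2
    rw [show z = (z.1, z.2) from rfl, h2]
    exact h1

end WR
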