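import Pool.Agent.helper79.WR.F04

/-! WR-F07.  Proof.  First part: `Flw.uniq` with `Cut.one` (`‖c t‖ ≤ 1` by `mem`, `spd = 1` by `unit`).
Second part: let `z = (c 0, v 0)`.  `⟪c T, v T⟫ ≥ 0`: the function `‖c‖²` on `[0, T]` has its maximum at `T`,
and its one sided derivative there is `2 ⟪c T, v T⟫` (e.g. `HasDerivWithinAt` and difference quotients, or
`IsLocalMaxOn`-lemmas: `IsLocalMaxOn.hasFDerivWithinAt_nonpos`, or by contradiction with the flow: `φ`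
is differentiable on both sides).  For `s ≥ T`: `φ s z = φ (s - T) (c T, v T)` and `Flw.noret`.
For `s ≤ 0`: similarly `⟪c 0, v 0⟫ ≤ 0`, and by `Flw.rev` `φ s z = S (φ (-s) (S z))`, `S (x, v) = (x, -v)`,
use `Flw.noret` for `S z`. -/

noncomputable section

namespace WR

open SN KBR Set Filter Topology
open scoped ContDiff RealInnerProductSpace

variable {n : ℕ}

theorem f07_norm {L : E n → ℝ} {T : ℝ} {c v : ℝ → E n} (hc : UGeod L T c v) {t : ℝ}
    (ht : t ∈ Icc 0 T) : ‖c t‖ ≤ 1 := mem_closedBall_zero_iff.1 (hc.mem t ht)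

theorem f07_spd {L : E n → ℝ} {T : ℝ} {c v : ℝ → E n} (hc : UGeod L T c v) {t : ℝ}
    (ht : t ∈ Icc 0 T) : spd L (c t, v t) = 1 := by
  have h1 := hc.unit t ht
  have h2 : spd L (c t, v t) ^ 2 = 1 := by
    unfold spd
    rw [mul_pow, ← h1, ← Real.exp_nat_mul]
    norm_num
  have h3 : 0 ≤ spd L (c t, v t) := mul_nonneg (Real.exp_pos _).le (norm_nonneg _)
  nlinarith

theorem f07_eta {L : E n → ℝ} {η : E n × E n → ℝ} {r : ℝ} (hη : Cut L η r) {T : ℝ}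
    {c v : ℝ → E n} (hc : UGeod L T c v) {t : ℝ} (ht : t ∈ Icc 0 T) : η (c t, v t) = 1 :=
  hη.one (c t, v t) (f07_norm hc ht) (by rw [f07_spd hc ht]; norm_num)

/-- WR-F07: unit speed geodesics in the ball are orbits -/
theorem Flw.ugeod {L : E n → ℝ} {η : E n × E n → ℝ} {r : ℝ}
    {φ : ℝ → E n × E n → E n × E n} (hη : Cut L η r) (h : Flw L η φ) {T : ℝ} {c v : ℝ → E n}
    (hc : UGeod L T c v) : ∀ t ∈ Icc 0 T, φ t (c 0, v 0) = (c t, v t) :=
  h.uniq T c v (fun _ ht => f07_eta hη hc ht) hc.vel hc.acc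

theorem f07_deriv {L : E n → ℝ} {η : E n × E n → ℝ}
    {φ : ℝ → E n × E n → E n × E n} (h : Flw L η φ) (z : E n × E n) (t : ℝ) :
    HasDerivAt (fun s => ‖(φ s z).1‖ ^ 2) (2 * (η (φ t z) * ⟪(φ t z).1, (φ t z).2⟫)) t := by
  have h1 := (h.d1 t z).norm_sq
  rwa [inner_smul_right] at h1

/-- WR-F07: a geodesic with endpoints in the boundary is outside of the open ball at all other
times -/
theorem Flw.outside {L : E n → ℝ} (hL : ContDiff ℝ ∞ L) {η : E n × E n → ℝ} {r : ℝ}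
    {φ : ℝ → E n × E n → E n × E n} (hη : Cut L η r) (h : Flw L η φ) {T : ℝ} {c v : ℝ → E n}
    (hT : 0 < T) (hc : UGeod L T c v) (h0 : ‖c 0‖ = 1) (h1 : ‖c T‖ = 1) {s : ℝ}
    (hs : s ≤ 0 ∨ T ≤ s) : 1 ≤ ‖(φ s (c 0, v 0)).1‖ := by
  have hu := h.ugeod hη hc
  have hT0 : (0 : ℝ) ∈ Icc 0 T := ⟨le_rfl, hT.le⟩
  have hTT : T ∈ Icc 0 T := ⟨hT.le, le_rfl⟩
  have hle : ∀ t ∈ Icc 0 T, ‖(φ t (c 0, v 0)).1‖ ^ 2 ≤ 1 := by
    intro t ht
    rw [hu t ht]
    exact pow_le_one₀ (norm_nonneg _) (f07_norm hc ht)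
  have e0 : ‖(φ 0 (c 0, v 0)).1‖ ^ 2 = 1 := by rw [hu 0 hT0, h0]; norm_num
  have eT : ‖(φ T (c 0, v 0)).1‖ ^ 2 = 1 := by rw [hu T hTT, h1]; norm_num
  have hdT : 0 ≤ ⟪c T, v T⟫ := by
    have hd := f07_deriv h (c 0, v 0) T
    rw [hu T hTT, f07_eta hη hc hTT] at hd
    have h2 := (hasDerivWithinAt_iff_tendsto_slope' (s := Iio T) (by simp)).1
      hd.hasDerivWithinAt
    have h3 : 0 ≤ 2 * (1 * ⟪(c T, v T).1, (c T, v T).2⟫) := by
      refine ge_of_tendsto h2 ?_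
      filter_upwards [Ioo_mem_nhdsLT hT] with t ht
      rw [slope_def_field, eT]
      exact div_nonneg_of_nonpos (by linarith [hle t ⟨ht.1.le, ht.2.le⟩]) (by linarith [ht.2])
    simpa using h3
  have hd0 : ⟪c 0, v 0⟫ ≤ 0 := by
    have hd := f07_deriv h (c 0, v 0) 0
    rw [hu 0 hT0, f07_eta hη hc hT0] at hd
    have h2 := (hasDerivWithinAt_iff_tendsto_slope' (s := Ioi 0) (by simp)).1
      hd.hasDerivWithinAt
    have h3 : 2 * (1 * ⟪(c 0, v 0).1, (c 0, v 0).2⟫) ≤ 0 := by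
      refine le_of_tendsto h2 ?_
      filter_upwards [Ioo_mem_nhdsGT hT] with t ht
      rw [slope_def_field, e0]
      exact div_nonpos_of_nonpos_of_nonneg (by linarith [hle t ⟨ht.1.le, ht.2.le⟩])
        (by linarith [ht.1])
    rw [one_mul] at h3
    linarith
  rcases hs with hs | hs
  · have h4 := h.rev s (c 0) (v 0)
    have h5 : (φ s (c 0, v 0)).1 = (φ (-s) (c 0, -v 0)).1 := by rw [h4]
    rw [h5]
    exact h.noret hL hη (z := (c 0, -v 0)) h0.ge (by simpa using hd0) (by linarith)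
  · have h4 : φ s (c 0, v 0) = φ (s - T) (c T, v T) := by
      rw [← hu T hTT, ← h.add, sub_add_cancel]
    rw [h4]
    exact h.noret hL hη (z := (c T, v T)) h1.ge hdT (by linarith)

end WR
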