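import Pool.Agent.helper79.WR.FDefs
import Pool.Agent.helper79.WR.F03

/-! WR-F08.  Proof.  `g t = ρ (φ t z).1`.  Near `t = 0` the orbit is in the open unit ball and `spd ≤ 2`
(`Flw.spd_eq`), so `η = 1` and `x' = v`, `v' = gacc L x v`; `g' = fderiv ℝ ρ x v`,
`g'' (0) = fderiv ℝ (fderiv ℝ ρ) x v v + fderiv ℝ ρ x (gacc L x v) = hess L ρ z.1 z.2`.
`g` has a maximum at `0`, so `g' 0 = 0`, and `g'' 0 ≤ 0` (otherwise it is also a local minimum, see the end of the proof of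
`SN.stays` in SN/E3.lean: `isLocalMin_of_deriv_deriv_pos`).

author: helper1 -/

noncomputable section

namespace WR

open SN KBR Set Filter Topology
open scoped ContDiff RealInnerProductSpace

variable {n : ℕ}

/-- WR-F08: second order condition at a maximum -/
theorem Flw.second {L ρ : E n → ℝ} (hL : ContDiff ℝ ∞ L) (hρ : ContDiff ℝ ∞ ρ)
    {η : E n × E n → ℝ} {r : ℝ}
    {φ : ℝ → E n × E n → E n × E n} (hη : Cut L η r) (h : Flw L η φ) {z : E n × E n}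
    (hz : z ∈ KK L) (hz1 : ‖z.1‖ < 1) (hm : ∀ t, ρ (φ t z).1 ≤ ρ z.1) :
    fderiv ℝ ρ z.1 z.2 = 0 ∧ hess L ρ z.1 z.2 ≤ 0 := by
  have h0 : φ 0 z = z := h.zero z
  have hcont : Continuous (fun t => (φ t z).1) :=
    continuous_iff_continuousAt.2 fun t => (h.d1 t z).continuousAt
  have hopen : IsOpen {t : ℝ | ‖(φ t z).1‖ < 1} := isOpen_lt hcont.norm continuous_const
  have hmem0 : (0 : ℝ) ∈ {t : ℝ | ‖(φ t z).1‖ < 1} := by
    change ‖(φ 0 z).1‖ < 1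
    rw [h0]
    exact hz1
  have hnear : ∀ᶠ t in 𝓝 (0 : ℝ), t ∈ {t : ℝ | ‖(φ t z).1‖ < 1} := hopen.mem_nhds hmem0
  have heta : ∀ t ∈ {t : ℝ | ‖(φ t z).1‖ < 1}, η (φ t z) = 1 := by
    intro t ht
    refine hη.one _ (le_of_lt ht) ?_
    rw [Flw.spd_eq hL h t z]
    exact hz.2.2
  have hd1 : ∀ t ∈ {t : ℝ | ‖(φ t z).1‖ < 1}, HasDerivAt (fun s => (φ s z).1) (φ t z).2 t := by
    intro t ht
    have := h.d1 t z
    rwa [heta t ht, one_smul] at this
  have hd2 : ∀ t ∈ {t : ℝ | ‖(φ t z).1‖ < 1},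
      HasDerivAt (fun s => (φ s z).2) (gacc L (φ t z).1 (φ t z).2) t := by
    intro t ht
    have := h.d2 t z
    rwa [heta t ht, one_smul] at this
  have hρd : Differentiable ℝ ρ := hρ.differentiable (by simp)
  have hρ2 : Differentiable ℝ (fderiv ℝ ρ) :=
    (hρ.fderiv_right (m := ∞) (by simp)).differentiable (by simp)
  have hg : ∀ t ∈ {t : ℝ | ‖(φ t z).1‖ < 1},
      HasDerivAt (fun s => ρ (φ s z).1) (fderiv ℝ ρ (φ t z).1 (φ t z).2) t := by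
    intro t ht
    exact (hρd _).hasFDerivAt.comp_hasDerivAt t (hd1 t ht)
  have hmax : IsLocalMax (fun s => ρ (φ s z).1) 0 := by
    refine Eventually.of_forall fun t => ?_
    change ρ (φ t z).1 ≤ ρ (φ 0 z).1
    rw [h0]
    exact hm t
  have hz0 : fderiv ℝ ρ (φ 0 z).1 (φ 0 z).2 = 0 := hmax.hasDerivAt_eq_zero (hg 0 hmem0)
  refine ⟨by rwa [h0] at hz0, ?_⟩
  by_contra hcon
  push Not at hcon
  have hderiv : deriv (fun s => ρ (φ s z).1) =ᶠ[𝓝 0] fun t => fderiv ℝ ρ (φ t z).1 (φ t z).2 := by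
    filter_upwards [hnear] with t ht
    exact (hg t ht).deriv
  have hgg : HasDerivAt (fun t => fderiv ℝ ρ (φ t z).1 (φ t z).2)
      (fderiv ℝ (fderiv ℝ ρ) (φ 0 z).1 (φ 0 z).2 (φ 0 z).2 +
        fderiv ℝ ρ (φ 0 z).1 (gacc L (φ 0 z).1 (φ 0 z).2)) 0 := by
    have h1 : HasDerivAt (fun t => fderiv ℝ ρ (φ t z).1)
        (fderiv ℝ (fderiv ℝ ρ) (φ 0 z).1 (φ 0 z).2) 0 :=
      (hρ2 _).hasFDerivAt.comp_hasDerivAt 0 (hd1 0 hmem0)
    exact h1.clm_apply (hd2 0 hmem0)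
  have hdd : deriv (deriv (fun s => ρ (φ s z).1)) 0 = hess L ρ z.1 z.2 := by
    rw [hderiv.deriv_eq, hgg.deriv, h0]
    rfl
  have hmin : IsLocalMin (fun s => ρ (φ s z).1) 0 := by
    refine isLocalMin_of_deriv_deriv_pos ?_ ?_ (hg 0 hmem0).continuousAt
    · rw [hdd]; exact hcon
    · rw [(hg 0 hmem0).deriv, hz0]
  have hconst : (fun s => ρ (φ s z).1) =ᶠ[𝓝 0] fun _ => ρ (φ 0 z).1 := by
    filter_upwards [hmax, hmin] with t h2 h3
    exact le_antisymm h2 h3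
  have h4 : deriv (fun s => ρ (φ s z).1) =ᶠ[𝓝 0] fun _ => (0 : ℝ) := by
    have h5 := hconst.deriv
    filter_upwards [h5] with t ht'
    rw [ht']
    simp
  have h6 : deriv (deriv (fun s => ρ (φ s z).1)) 0 = 0 := by
    rw [h4.deriv_eq]
    simp
  rw [hdd] at h6
  linarith

end WR
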