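import Pool.Agent.helper79.WR.FDefs

/-! WR-F09.  `spd L` is continuous.  `KK L` is closed and bounded in the finite dimensional space `E n × E n`
(`L` is bounded below on the compact ball, so `‖p.2‖ ≤ 2 exp (-min L)`).
`{p | ‖p.1‖ < 1} ∩ UU L` is open and contained in `KK L`. -/

noncomputable section

namespace WR

open SN KBR Set Filter Topology
open scoped ContDiff RealInnerProductSpace

variable {n : ℕ}

theorem continuous_spd {L : E n → ℝ} (hL : ContDiff ℝ ∞ L) : Continuous (spd L) := by
  have h := hL.continuous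
  unfold spd
  fun_prop

theorem isCompact_KK {L : E n → ℝ} (hL : ContDiff ℝ ∞ L) : IsCompact (KK L) := by
  obtain ⟨C, hC⟩ := (isCompact_closedBall (0 : E n) 1).exists_bound_of_continuousOn
    hL.continuous.continuousOn
  have hsub : KK L ⊆ Metric.closedBall (0 : E n) 1 ×ˢ
      Metric.closedBall (0 : E n) (2 * Real.exp C) := by
    rintro ⟨x, v⟩ ⟨h1, -, h2⟩
    refine ⟨by simpa using h1, ?_⟩
    have h3 := hC x (by simpa using h1)
    rw [Real.norm_eq_abs, abs_le] at h3
    simp only [spd] at h2
    rw [mem_closedBall_zero_iff]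
    have h4 : Real.exp (-C) * ‖v‖ ≤ 2 :=
      (mul_le_mul_of_nonneg_right (Real.exp_le_exp.2 h3.1) (norm_nonneg v)).trans h2
    calc ‖v‖ = Real.exp C * (Real.exp (-C) * ‖v‖) := by
          rw [← mul_assoc, ← Real.exp_add]; simp
      _ ≤ Real.exp C * 2 := mul_le_mul_of_nonneg_left h4 (Real.exp_pos _).le
      _ = 2 * Real.exp C := mul_comm _ _
  apply ((isCompact_closedBall _ _).prod (isCompact_closedBall _ _)).of_isClosed_subset _ hsub
  have hs := continuous_spd hL
  exact (isClosed_le (continuous_fst.norm) continuous_const).inter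
    ((isClosed_le continuous_const hs).inter (isClosed_le hs continuous_const))

theorem isOpen_UU {L : E n → ℝ} (hL : ContDiff ℝ ∞ L) : IsOpen (UU L) := by
  have hs := continuous_spd hL
  exact (isOpen_lt continuous_const hs).inter (isOpen_lt hs continuous_const)

theorem mem_interior_KK {L : E n → ℝ} (hL : ContDiff ℝ ∞ L) {z : E n × E n} (hz : z ∈ UU L)
    (h1 : ‖z.1‖ < 1) : z ∈ interior (KK L) := by
  apply mem_interior.2
  refine ⟨{p | ‖p.1‖ < 1} ∩ UU L, ?_, ?_, h1, hz⟩
  · rintro p ⟨hp1, hp2, hp3⟩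
    exact ⟨(show ‖p.1‖ < 1 from hp1).le, hp2.le, hp3.le⟩
  · exact (isOpen_lt continuous_fst.norm continuous_const).inter (isOpen_UU hL)

end WR
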