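import Pool.Agent.helper79.WR.F08
import Pool.Agent.helper79.WR.F09

/-! WR-F10.  Proof.  Otherwise there are, for `δ = 1 / (k + 1)`, points `z k ∈ KK L` with `0 ≤ ρ (z k).1`,
`ρ (φ t (z k)).1 ≤ 1 / (k + 1)` for all `t` and `|fderiv ℝ Φ (z k).1 (z k).2| < 1 / (k + 1)`.  `KK L` is compact (`isCompact_KK`), so a
subsequence converges to `z ∈ KK L` and by continuity (`h.smooth`) `0 ≤ ρ z.1`, `ρ (φ t z).1 ≤ 0` for all `t`
(so `ρ z.1 = 0` by `t = 0`), `fderiv ℝ Φ z.1 z.2 = 0`.  `hg.neg` gives `‖z.1‖ < 1`; `Flw.second` gives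
`fderiv ℝ ρ z.1 z.2 = 0` and `hess L ρ z.1 z.2 ≤ 0`; `z.2 ≠ 0` since `spd ≥ 1/2`; `hg.key` gives
`0 < hess L ρ z.1 z.2`.  Contradiction.

author: helper1 -/

noncomputable section

namespace WR

open SN KBR Set Filter Topology
open scoped ContDiff RealInnerProductSpace

variable {n : ℕ}

/-- WR-F10: compactness -/
theorem exists_delta {L ρ Φ : E n → ℝ} (hg : SW.Geo L ρ Φ) {η : E n × E n → ℝ} {r : ℝ}
    {φ : ℝ → E n × E n → E n × E n} (hη : Cut L η r) (h : Flw L η φ) :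
    ∃ δ > 0, ∀ z ∈ KK L, 0 ≤ ρ z.1 → (∀ t, ρ (φ t z).1 ≤ δ) → δ ≤ |fderiv ℝ Φ z.1 z.2| := by
  have hL : ContDiff ℝ ∞ L := hg.good.smooth
  by_contra hcon
  push Not at hcon
  have hk : ∀ k : ℕ, ∃ z ∈ KK L, 0 ≤ ρ z.1 ∧ (∀ t, ρ (φ t z).1 ≤ 1 / ((k : ℝ) + 1)) ∧
      |fderiv ℝ Φ z.1 z.2| < 1 / ((k : ℝ) + 1) := fun k => by
    obtain ⟨z, hz, h1, h2, h3⟩ := hcon (1 / ((k : ℝ) + 1)) (by positivity)
    exact ⟨z, hz, h1, h2, h3⟩
  choose z hzK hz1 hz2 hz3 using hk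
  obtain ⟨a, haK, ψ, hψ, hlim⟩ := (isCompact_KK hL).tendsto_subseq hzK
  have hinv : Tendsto (fun k : ℕ => 1 / ((ψ k : ℝ) + 1)) atTop (𝓝 0) :=
    (tendsto_one_div_add_atTop_nhds_zero_nat (𝕜 := ℝ)).comp hψ.tendsto_atTop
  have hρc : Continuous ρ := hg.smoothρ.continuous
  have hφc : ∀ t, Continuous (fun w => φ t w) := fun t =>
    h.smooth.continuous.comp (continuous_const.prodMk continuous_id)
  have hΦc : Continuous (fun p : E n × E n => fderiv ℝ Φ p.1 p.2) :=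
    ((hg.smoothΦ.continuous_fderiv (by simp)).comp continuous_fst).clm_apply continuous_snd
  have ha1 : 0 ≤ ρ a.1 := by
    have h1 : Tendsto (fun k => ρ (z (ψ k)).1) atTop (𝓝 (ρ a.1)) :=
      ((hρc.comp continuous_fst).tendsto a).comp hlim
    exact ge_of_tendsto h1 (Eventually.of_forall fun k => hz1 _)
  have ha2 : ∀ t, ρ (φ t a).1 ≤ 0 := by
    intro t
    have h1 : Tendsto (fun k => ρ (φ t (z (ψ k))).1) atTop (𝓝 (ρ (φ t a).1)) :=
      ((hρc.comp (continuous_fst.comp (hφc t))).tendsto a).comp hlim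
    exact le_of_tendsto_of_tendsto h1 hinv (Eventually.of_forall fun k => hz2 _ t)
  have ha3 : fderiv ℝ Φ a.1 a.2 = 0 := by
    have h1 : Tendsto (fun k => |fderiv ℝ Φ (z (ψ k)).1 (z (ψ k)).2|) atTop
        (𝓝 |fderiv ℝ Φ a.1 a.2|) :=
      ((hΦc.abs).tendsto a).comp hlim
    have h2 := le_of_tendsto_of_tendsto h1 hinv (Eventually.of_forall fun k => (hz3 _).le)
    exact abs_nonpos_iff.mp h2
  have hφ0 : φ 0 a = a := h.zero a
  have ha0 : ρ a.1 = 0 := by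
    have := ha2 0
    rw [hφ0] at this
    exact le_antisymm this ha1
  have hnorm : ‖a.1‖ < 1 := by
    by_contra hn
    push Not at hn
    have := hg.neg a.1 hn
    linarith
  obtain ⟨h4, h5⟩ := Flw.second hL hg.smoothρ hη h haK hnorm (fun t => by rw [ha0]; exact ha2 t)
  have hv : a.2 ≠ 0 := by
    intro h6
    have h7 := haK.2.1
    rw [spd, h6, norm_zero, mul_zero] at h7
    norm_num at h7
  have := hg.key a.1 a.2 hnorm.le hv ha0 h4 ha3
  linarith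

end WR
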