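import Pool.Agent.helper79.WR.F03
import Pool.Agent.helper79.WR.F06
import Pool.Agent.helper79.WR.F10

/-! WR-F11.  author: helper76.  Proof.  Take `δ₀` from `exists_delta` and `x₁` with `ρ x₁ > 0` (`hg.pos`; `‖x₁‖ < 1` by `hg.neg`);
`δ = min δ₀ (ρ x₁)` also satisfies the conclusion of `exists_delta` (it is monotone in `δ`).  Point with `ρ x = 3 δ / 8`: intermediate value
theorem on the segment from `x₁` to a point `y` with `‖y‖ = 1`, or simply on `s • x₁` for `s ∈ [1, 1 / ‖x₁‖]`, if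
`x₁ ≠ 0`, and on `s • e`, `e` a unit vector, if `x₁ = 0` (this is why `0 < n` is assumed).
`Ana`: `smoothR`, `smoothP`: compositions with `h.smooth`.  `compact`, `open_U`: F09.  `sub`: `R (0, z) = ρ z.1 / δ ≥ 0`
gives `‖z.1‖ < 1` (`hg.neg`), `mem_interior_KK`.  `ends`: `Flw.exit` (`|8|, |-8| ≥ 8`) and `hg.neg`.
`phase`: let `z ∈ KK L`, `ρ (φ s z).1 < δ` for `|s| ≤ 8`; for `|s| ≥ 8` `ρ (φ s z).1 < 0` by `Flw.exit` and `hg.neg`.  Let
`t` with `0 ≤ ρ (φ t z).1`; `z' = φ t z ∈ KK L` (`Flw.spd_eq`, `‖z'.1‖ < 1` by `hg.neg`), `φ s z' = φ (s + t) z`, so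
`δ ≤ |fderiv ℝ Φ z'.1 z'.2|`.  And `fderiv ℝ (Pf Φ φ) (t, z) (1, 0)` is the derivative of
`s ↦ Φ (φ s z).1` at `t`, `= fderiv ℝ Φ z'.1 (η z' • z'.2)` with `η z' = 1`. -/

noncomputable section

namespace WR

open SN KBR Set Filter Topology
open scoped ContDiff RealInnerProductSpace

variable {n : ℕ}

private theorem f11_point (hn : 0 < n) {ρ : E n → ℝ} (hc : Continuous ρ)
    (hneg : ∀ x, 1 ≤ ‖x‖ → ρ x < 0) {x₁ : E n} {y : ℝ} (hy0 : 0 < y) (hy : y ≤ ρ x₁) :
    ∃ x, ‖x‖ ≤ 1 ∧ ρ x = y := by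
  have hx1 : ‖x₁‖ < 1 := by
    by_contra hcon
    push Not at hcon
    linarith [hneg x₁ hcon]
  let e : E n := EuclideanSpace.single ⟨0, hn⟩ 1
  have he : ‖e‖ = 1 := by simp [e]
  have hpc : IsPreconnected (Metric.closedBall (0 : E n) 1) :=
    (convex_closedBall 0 1).isPreconnected
  have hiv := hpc.intermediate_value (a := e) (b := x₁) (by simp [he]) (by simpa using hx1.le)
    hc.continuousOn
  obtain ⟨x, hx, hxy⟩ := hiv ⟨(hneg e he.ge).le.trans hy0.le, hy⟩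
  exact ⟨x, by simpa using hx, hxy⟩

/-- WR-F11: the hypotheses of the analysis part hold -/
theorem exists_ana (hn : 0 < n) {L ρ Φ : E n → ℝ} (hg : SW.Geo L ρ Φ) {η : E n × E n → ℝ} {r : ℝ}
    {φ : ℝ → E n × E n → E n × E n} (hη : Cut L η r) (h : Flw L η φ) :
    ∃ δ > 0, (∃ x, ‖x‖ ≤ 1 ∧ ρ x / δ = 3 / 8) ∧ Ana (Rf ρ δ φ) (Pf Φ φ) δ (KK L) (UU L) := by
  have hL : ContDiff ℝ ∞ L := hg.good.smooth
  obtain ⟨δ₀, hδ₀, hd⟩ := exists_delta hg hη h
  obtain ⟨x₁, hx₁⟩ := hg.pos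
  have hneg1 : ∀ x, 0 ≤ ρ x → ‖x‖ < 1 := by
    intro x hx
    by_contra hcon
    push Not at hcon
    linarith [hg.neg x hcon]
  set δ : ℝ := min δ₀ (ρ x₁) with hδdef
  have hδ : 0 < δ := lt_min hδ₀ hx₁
  have hδ1 : δ ≤ δ₀ := min_le_left _ _
  have hδ2 : δ ≤ ρ x₁ := min_le_right _ _
  refine ⟨δ, hδ, ?_, ?_⟩
  · obtain ⟨x, hx, hxy⟩ := f11_point hn hg.smoothρ.continuous hg.neg
      (x₁ := x₁) (y := 3 * δ / 8) (by positivity) (by linarith)
    refine ⟨x, hx, ?_⟩
    rw [hxy]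
    field_simp
  · have hfst : ContDiff ℝ ∞ (fun q : ℝ × (E n × E n) => (φ q.1 q.2).1) := h.smooth.fst
    have hsP : ContDiff ℝ ∞ (Pf Φ φ) := hg.smoothΦ.comp hfst
    refine
      { smoothR := (hg.smoothρ.comp hfst).div_const δ
        smoothP := hsP
        c_pos := hδ
        compact := isCompact_KK hL
        open_U := isOpen_UU hL
        sub := ?_
        ends := ?_
        phase := ?_ }
    · intro z hz h0
      have h1 : 0 ≤ ρ z.1 / δ := by
        have h2 : Rf ρ δ φ (0, z) = ρ z.1 / δ := by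
          simp only [Rf, h.zero]
        rwa [h2] at h0
      have h3 : 0 ≤ ρ z.1 := by
        by_contra hcon
        push Not at hcon
        exact absurd h1 (not_le.2 (div_neg_of_neg_of_pos hcon hδ))
      exact mem_interior_KK hL hz (hneg1 _ h3)
    · intro z hz
      have h1 : 1 ≤ ‖(φ 8 z).1‖ := Flw.exit hg.good hη h hz (by norm_num)
      have h2 : 1 ≤ ‖(φ (-8) z).1‖ := Flw.exit hg.good hη h hz (by norm_num)
      exact ⟨div_neg_of_neg_of_pos (hg.neg _ h1) hδ, div_neg_of_neg_of_pos (hg.neg _ h2) hδ⟩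
    · intro z hz hlt t _ h0
      have h3 : 0 ≤ ρ (φ t z).1 := by
        by_contra hcon
        push Not at hcon
        exact absurd h0 (not_le.2 (div_neg_of_neg_of_pos hcon hδ))
      have h4 : ‖(φ t z).1‖ < 1 := hneg1 _ h3
      have hs : spd L (φ t z) = spd L z := Flw.spd_eq hL h t z
      have hz' : φ t z ∈ KK L := ⟨h4.le, by rw [hs]; exact hz.2.1, by rw [hs]; exact hz.2.2⟩
      have hall : ∀ s, ρ (φ s (φ t z)).1 ≤ δ₀ := by
        intro s
        rw [← h.add]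
        by_cases hst : 8 ≤ |s + t|
        · exact (hg.neg _ (Flw.exit hg.good hη h hz hst)).le.trans hδ₀.le
        · push Not at hst
          have h5 := hlt (s + t) ⟨(abs_lt.1 hst).1.le, (abs_lt.1 hst).2.le⟩
          have h6 : ρ (φ (s + t) z).1 / δ < 1 := h5
          rw [div_lt_one hδ] at h6
          linarith
      have hmain := hd (φ t z) hz' h3 hall
      have hη1 : η (φ t z) = 1 := hη.one _ h4.le hz'.2.2
      have hder1 : HasDerivAt (fun s => Φ (φ s z).1) (fderiv ℝ Φ (φ t z).1 (φ t z).2) t := by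
        have h5 := h.d1 t z
        rw [hη1, one_smul] at h5
        have h6 : HasFDerivAt Φ (fderiv ℝ Φ (φ t z).1) (φ t z).1 :=
          (hg.smoothΦ.differentiable (by simp)).differentiableAt.hasFDerivAt
        exact h6.comp_hasDerivAt t h5
      have hder2 : HasDerivAt (fun s => Pf Φ φ (s, z)) (fderiv ℝ (Pf Φ φ) (t, z) (1, 0)) t := by
        have h6 : HasFDerivAt (Pf Φ φ) (fderiv ℝ (Pf Φ φ) (t, z)) (t, z) :=
          (hsP.differentiable (by simp)).differentiableAt.hasFDerivAt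
        have h7 : HasDerivAt (fun s : ℝ => (s, z)) ((1 : ℝ), (0 : E n × E n)) t :=
          (hasDerivAt_id t).prodMk (hasDerivAt_const t z)
        exact h6.comp_hasDerivAt t h7
      have heq : fderiv ℝ (Pf Φ φ) (t, z) (1, 0) = fderiv ℝ Φ (φ t z).1 (φ t z).2 :=
        hder2.unique hder1
      rw [heq]
      exact hδ1.trans hmain

end WR
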