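import Pool.Agent.helper79.WR.F07

/-! WR-F12.  Proof.  By F07 `(c t, v t) = φ t z`, `z = (c 0, v 0)`, and `φ s (φ t z) = φ (s + t) z`
(`Flw.add`); so the integral is `∫ s in (-8 + t)..(8 + t), F (φ s z).1` (`intervalIntegral.integral_comp_add_right`).
`-8 + t ≤ 0 ≤ T ≤ 8 + t`; the integrand vanishes for `s ≤ 0` and `s ≥ T` (`Flw.outside`, `hF0`), split the
integral (`intervalIntegral.integral_add_adjacent_intervals`, everything is continuous) and for `s ∈ [0, T]` `(φ s z).1 = c s`. -/

noncomputable section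

namespace WR

open SN KBR Set Filter Topology
open scoped ContDiff RealInnerProductSpace

variable {n : ℕ}

/-- WR-F12: the integrals over the orbits of the points of a geodesic are the integrals over the
geodesic -/
theorem Flw.integral {L : E n → ℝ} (hL : ContDiff ℝ ∞ L) {η : E n × E n → ℝ} {r : ℝ}
    {φ : ℝ → E n × E n → E n × E n} (hη : Cut L η r) (h : Flw L η φ) {T : ℝ} {c v : ℝ → E n}
    (hT : 0 < T) (hT4 : T < 4) (hc : UGeod L T c v) (h0 : ‖c 0‖ = 1) (h1 : ‖c T‖ = 1)
    {F : E n → ℝ} (hF : Continuous F) (hF0 : ∀ x, 1 ≤ ‖x‖ → F x = 0) {t : ℝ} (ht : t ∈ Icc 0 T) :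
    ∫ s in (-8 : ℝ)..8, F (φ s (c t, v t)).1 = ∫ s in (0 : ℝ)..T, F (c s) := by
  set z : E n × E n := (c 0, v 0) with hz
  have hu : φ t z = (c t, v t) := h.ugeod hη hc t ht
  have hcont : Continuous (fun s : ℝ => F (φ s z).1) := by
    have h2 : Continuous (fun s : ℝ => φ s z) :=
      h.smooth.continuous.comp (continuous_id.prodMk continuous_const)
    exact hF.comp (continuous_fst.comp h2)
  have e1 : ∫ s in (-8 : ℝ)..8, F (φ s (c t, v t)).1 =
      ∫ s in (-8 + t : ℝ)..(8 + t), F (φ s z).1 := by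
    rw [← intervalIntegral.integral_comp_add_right (fun s => F (φ s z).1) t]
    refine intervalIntegral.integral_congr fun s _ => ?_
    show F (φ s (c t, v t)).1 = F (φ (s + t) z).1
    rw [h.add, hu]
  have hzero : ∀ s, s ≤ 0 ∨ T ≤ s → F (φ s z).1 = 0 := fun s hs =>
    hF0 _ (h.outside hL hη hT hc h0 h1 hs)
  have hi : ∀ a b : ℝ, IntervalIntegrable (fun s => F (φ s z).1) MeasureTheory.volume a b :=
    fun a b => hcont.intervalIntegrable a b
  rw [e1, ← intervalIntegral.integral_add_adjacent_intervals (hi (-8 + t) 0) (hi 0 (8 + t)),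
    ← intervalIntegral.integral_add_adjacent_intervals (hi 0 T) (hi T (8 + t))]
  have e2 : ∫ s in (-8 + t : ℝ)..0, F (φ s z).1 = 0 := by
    rw [intervalIntegral.integral_congr (g := fun _ => (0 : ℝ))]
    · simp
    · intro s hs
      rw [uIcc_of_le (by have := ht.2; linarith)] at hs
      exact hzero s (Or.inl hs.2)
  have e3 : ∫ s in T..(8 + t), F (φ s z).1 = 0 := by
    rw [intervalIntegral.integral_congr (g := fun _ => (0 : ℝ))]
    · simp
    · intro s hs
      rw [uIcc_of_le (by have := ht.1; linarith)] at hs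
      exact hzero s (Or.inr hs.1)
  have e4 : ∫ s in (0 : ℝ)..T, F (φ s z).1 = ∫ s in (0 : ℝ)..T, F (c s) := by
    refine intervalIntegral.integral_congr fun s hs => ?_
    rw [uIcc_of_le hT.le] at hs
    show F (φ s z).1 = F (c s)
    rw [h.ugeod hη hc s hs]
  rw [e2, e3, e4, zero_add, add_zero]

end WR
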