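import Pool.Agent.helper79.WR.F01
import Pool.Agent.helper79.WR.F02
import Pool.Agent.helper79.WR.F11
import Pool.Agent.helper79.WR.F12
import Pool.Agent.helper79.WR.AnaMain

/-! WR-F13: assembly of the analysis part -/

noncomputable section

namespace WR

open SN KBR Set Filter Topology
open scoped ContDiff RealInnerProductSpace

variable {n : ℕ}

/-- the weight and the function -/
theorem exists_weight (hn : 0 < n) {L ρ Φ : E n → ℝ} (hg : SW.Geo L ρ Φ) :
    ∃ (w : E n × E n → ℝ) (f : E n → ℝ), ContDiffOn ℝ ∞ w (UU L) ∧ (∀ z ∈ UU L, 0 < w z) ∧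
      ContDiff ℝ ∞ f ∧ (∀ x, 1 ≤ ‖x‖ → f x = 0) ∧ (∃ x, ‖x‖ ≤ 1 ∧ f x ≠ 0) ∧
      ∀ T c v, 0 ≤ T → UGeod L T c v → ‖c 0‖ = 1 → ‖c T‖ = 1 →
        ∫ t in (0 : ℝ)..T, w (c t, v t) * f (c t) = 0 := by
  obtain ⟨η, r, hη⟩ := exists_cut hg.good.smooth hg.good.conv
  obtain ⟨φ, hφ⟩ := exists_flw hg.good.smooth hη
  obtain ⟨δ, hδ, ⟨x0, hx0, hρx0⟩, hA⟩ := exists_ana hn hg hη hφ
  obtain ⟨σ, α, β, hw⟩ := ana_main hA
  set R := Rf ρ δ φ with hR
  set P := Pf Φ φ with hP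
  let w : E n × E n → ℝ := fun z =>
    1 - σ (IA R P z) (IB R P z) (IP R P z) (IN R P z) * fh R P 0 z
        + α (IA R P z) (IB R P z) (IP R P z) (IN R P z) * expNegInvGlue (fh R P 0 z)
        + β (IA R P z) (IB R P z) (IP R P z) (IN R P z) * expNegInvGlue (-fh R P 0 z)
  let f : E n → ℝ := fun x => FF (ρ x / δ) (Φ x)
  obtain ⟨h1, h2, h3⟩ := hw w (fun z => rfl)
  have hfs : ContDiff ℝ ∞ f := by
    have h4 : ContDiff ℝ ∞ (fun x : E n => (ρ x / δ, Φ x)) :=
      (hg.smoothρ.div_const δ).prodMk hg.smoothΦ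
    exact FF_smooth.comp h4
  have hf0 : ∀ x, 1 ≤ ‖x‖ → f x = 0 := fun x hx =>
    FF_zero (div_nonpos_of_nonpos_of_nonneg (hg.neg x hx).le hδ.le) _
  refine ⟨w, f, h1, h2, hfs, hf0, ⟨x0, hx0, ?_⟩, ?_⟩
  · have h4 : f x0 = FF (3 / 8) (Φ x0) := by simp only [f, hρx0]
    rw [h4]
    exact (FF_pos _).ne'
  intro T c v hT hc h0 hcT
  rcases hT.eq_or_lt with hT0 | hT0
  · rw [← hT0, intervalIntegral.integral_same]
  have hT4 : T < 4 := (hg.good.len T c v hc).trans Real.pi_lt_four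
  have hfh : ∀ t z, fh R P t z = f (φ t z).1 := fun t z => rfl
  have hfh0 : ∀ z : E n × E n, fh R P 0 z = f z.1 := fun z => by rw [hfh, hφ.zero]
  -- the four integrals
  have hint : ∀ F : E n → ℝ, Continuous F → (∀ x, 1 ≤ ‖x‖ → F x = 0) → ∀ t ∈ Icc 0 T,
      ∫ s in (-8 : ℝ)..8, F (φ s (c t, v t)).1 = ∫ s in (0 : ℝ)..T, F (c s) :=
    fun F hF hF0 t ht => Flw.integral hg.good.smooth hη hφ hT0 hT4 hc h0 hcT hF hF0 ht
  have hfc := hfs.continuous
  have hec : Continuous expNegInvGlue := expNegInvGlue.contDiff.continuous (n := 0)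
  have iA : ∀ t ∈ Icc 0 T, IA R P (c t, v t) = ∫ s in (0 : ℝ)..T, f (c s) := fun t ht =>
    hint f hfc hf0 t ht
  have iB : ∀ t ∈ Icc 0 T, IB R P (c t, v t) = ∫ s in (0 : ℝ)..T, f (c s) ^ 2 := fun t ht =>
    hint (fun x => f x ^ 2) (hfc.pow 2) (fun x hx => by simp [hf0 x hx]) t ht
  have iP : ∀ t ∈ Icc 0 T, IP R P (c t, v t) =
      ∫ s in (0 : ℝ)..T, expNegInvGlue (f (c s)) * f (c s) := fun t ht =>
    hint (fun x => expNegInvGlue (f x) * f x) ((hec.comp hfc).mul hfc)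
      (fun x hx => by simp [hf0 x hx]) t ht
  have iN : ∀ t ∈ Icc 0 T, IN R P (c t, v t) =
      ∫ s in (0 : ℝ)..T, expNegInvGlue (-f (c s)) * (-f (c s)) := fun t ht =>
    hint (fun x => expNegInvGlue (-f x) * (-f x)) ((hec.comp hfc.neg).mul hfc.neg)
      (fun x hx => by simp [hf0 x hx]) t ht
  have h00 : (0 : ℝ) ∈ Icc 0 T := ⟨le_rfl, hT⟩
  -- the initial point is in `K`
  have hK : (c 0, v 0) ∈ KK L := by
    have h5 := hc.unit 0 h00
    have h6 : (spd L (c 0, v 0)) ^ 2 = 1 := by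
      unfold spd
      rw [mul_pow, ← Real.exp_nat_mul]
      push_cast
      exact h5
    have h7 : 0 ≤ spd L (c 0, v 0) := by unfold spd; positivity
    have h8 : spd L (c 0, v 0) = 1 := by nlinarith [h6, h7]
    refine ⟨h0.le, ?_, ?_⟩ <;> rw [h8] <;> norm_num
  have h4 := h3 _ hK
  rw [iA 0 h00, iB 0 h00, iP 0 h00, iN 0 h00] at h4
  set A := ∫ s in (0 : ℝ)..T, f (c s) with hAdef
  set B := ∫ s in (0 : ℝ)..T, f (c s) ^ 2 with hBdef
  set P' := ∫ s in (0 : ℝ)..T, expNegInvGlue (f (c s)) * f (c s) with hPdef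
  set N := ∫ s in (0 : ℝ)..T, expNegInvGlue (-f (c s)) * (-f (c s)) with hNdef
  have hcont : ContinuousOn c (Icc 0 T) := fun t ht => (hc.vel t ht).continuousWithinAt
  have hfcc : ContinuousOn (fun t => f (c t)) (Icc 0 T) := hfc.comp_continuousOn hcont
  have hII : ∀ g : ℝ → ℝ, ContinuousOn g (Icc 0 T) →
      IntervalIntegrable g MeasureTheory.volume 0 T := fun g hg' =>
    (hg'.mono (by rw [uIcc_of_le hT])).intervalIntegrable
  have hcongr : ∫ t in (0 : ℝ)..T, w (c t, v t) * f (c t) =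
      ∫ t in (0 : ℝ)..T, (f (c t) - σ A B P' N * f (c t) ^ 2
        + α A B P' N * (expNegInvGlue (f (c t)) * f (c t))
        - β A B P' N * (expNegInvGlue (-f (c t)) * (-f (c t)))) := by
    refine intervalIntegral.integral_congr fun t ht => ?_
    rw [uIcc_of_le hT] at ht
    simp only [w, iA t ht, iB t ht, iP t ht, iN t ht, hfh0, ← hAdef, ← hBdef, ← hPdef, ← hNdef]
    ring
  have c1 : ContinuousOn (fun t => f (c t) ^ 2) (Icc 0 T) := hfcc.pow 2
  have c2 : ContinuousOn (fun t => expNegInvGlue (f (c t)) * f (c t)) (Icc 0 T) :=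
    (hec.comp_continuousOn hfcc).mul hfcc
  have c3 : ContinuousOn (fun t => expNegInvGlue (-f (c t)) * (-f (c t))) (Icc 0 T) :=
    (hec.comp_continuousOn hfcc.neg).mul hfcc.neg
  rw [hcongr, intervalIntegral.integral_sub, intervalIntegral.integral_add,
    intervalIntegral.integral_sub, intervalIntegral.integral_const_mul,
    intervalIntegral.integral_const_mul, intervalIntegral.integral_const_mul]
  · exact h4
  · exact hII _ hfcc
  · exact hII _ (c1.const_mul _)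
  · exact hII _ (hfcc.sub (c1.const_mul _))
  · exact hII _ (c2.const_mul _)
  · exact hII _ ((hfcc.sub (c1.const_mul _)).add (c2.const_mul _))
  · exact hII _ (c3.const_mul _)

end WR
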