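import Pool.Agent.helper79.WR.F01
import Pool.Agent.helper79.WR.F02
import Pool.Agent.helper79.WR.F06

/-! WR-F14.  Proof.  `exists_cut`, `exists_flw` give `φ`.  `z = (x, u)` has `spd L z = 1` (as in the proof of
`main_of_geo` in WR/Fin.lean), so `z ∈ KK L`, and `1 ≤ ‖(φ 8 z).1‖` by `Flw.exit`.  Let
`T = sInf {t ≥ 0 | 1 ≤ ‖(φ t z).1‖}` (closed, nonempty; `T ≤ 8`); then `‖(φ T z).1‖ = 1`
(`≤ 1` by continuity if `T > 0`, and since `‖x‖ ≤ 1` if `T = 0`), and `‖(φ t z).1‖ < 1` for `0 ≤ t < T`.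
On `[0, T]` `spd = 1` (`Flw.spd_eq`), `η = 1` (`Cut.one`), so `c t = (φ t z).1`, `v t = (φ t z).2` is a `CGeod`,
and `geod_iff` (SN/E2.lean) gives `Geod (cG L)`.  `unit`: from `spd = 1`. -/

noncomputable section

namespace WR

open SN KBR Set Filter Topology
open scoped ContDiff RealInnerProductSpace

variable {n : ℕ}

theorem f14_spd_sq (L : E n → ℝ) (p : E n × E n) : gm (cG L) p.1 p.2 p.2 = spd L p ^ 2 := by
  rw [e2_gm, real_inner_self_eq_norm_sq, spd, mul_pow, ← Real.exp_nat_mul]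
  push_cast
  rfl

/-- WR-F14: nontrapping -/
theorem nonTrap {L : E n → ℝ} (hg : Good L) : NonTrap (cG L) := by
  intro x hx u hu
  obtain ⟨η, r, hη⟩ := exists_cut hg.smooth hg.conv
  obtain ⟨φ, hφ⟩ := exists_flw hg.smooth hη
  obtain ⟨z, hz⟩ : ∃ z : E n × E n, z = (x, u) := ⟨_, rfl⟩
  have hz1 : z.1 = x := by rw [hz]
  have hz2 : z.2 = u := by rw [hz]
  have hs : spd L z = 1 := by
    have h1 : spd L z ^ 2 = 1 := by
      rw [← f14_spd_sq, hz1, hz2]; exact hu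
    have h2 : 0 ≤ spd L z := by unfold spd; positivity
    nlinarith [h1, h2]
  have hxn : ‖x‖ ≤ 1 := by simpa [M] using hx
  have hK : z ∈ KK L := ⟨by rw [hz1]; exact hxn, by rw [hs]; norm_num, by rw [hs]; norm_num⟩
  have h8 : 1 ≤ ‖(φ 8 z).1‖ := Flw.exit hg hη hφ hK (by norm_num)
  have hN : Continuous fun t : ℝ => ‖(φ t z).1‖ :=
    (continuous_iff_continuousAt.2 fun t => (hφ.d1 t z).continuousAt).norm
  have hcl : IsClosed {t : ℝ | 0 ≤ t ∧ 1 ≤ ‖(φ t z).1‖} :=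
    isClosed_Ici.inter (isClosed_le continuous_const hN)
  have hne : {t : ℝ | 0 ≤ t ∧ 1 ≤ ‖(φ t z).1‖}.Nonempty := ⟨8, by norm_num, h8⟩
  have hbd : BddBelow {t : ℝ | 0 ≤ t ∧ 1 ≤ ‖(φ t z).1‖} := ⟨0, fun t ht => ht.1⟩
  obtain ⟨T, hT⟩ : ∃ T, T = sInf {t : ℝ | 0 ≤ t ∧ 1 ≤ ‖(φ t z).1‖} := ⟨_, rfl⟩
  have hTm : 0 ≤ T ∧ 1 ≤ ‖(φ T z).1‖ := by
    have := hcl.csInf_mem hne hbd
    rw [← hT] at this
    exact this
  have hlt : ∀ t, 0 ≤ t → t < T → ‖(φ t z).1‖ < 1 := by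
    intro t h0 h1
    by_contra h2
    have h3 : T ≤ t := by
      rw [hT]
      exact csInf_le hbd ⟨h0, not_lt.1 h2⟩
    exact absurd h1 (not_lt.2 h3)
  have hTle : ‖(φ T z).1‖ ≤ 1 := by
    rcases hTm.1.eq_or_lt with h0 | h0
    · rw [← h0, hφ.zero, hz1]; exact hxn
    · have h1 : Tendsto (fun t : ℝ => ‖(φ t z).1‖) (𝓝[<] T) (𝓝 ‖(φ T z).1‖) :=
        hN.continuousAt.tendsto.mono_left nhdsWithin_le_nhds
      refine le_of_tendsto h1 ?_
      filter_upwards [Ico_mem_nhdsLT h0] with t ht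
      exact (hlt t ht.1 ht.2).le
  have hle : ∀ t ∈ Icc 0 T, ‖(φ t z).1‖ ≤ 1 := by
    intro t ht
    rcases ht.2.eq_or_lt with h0 | h0
    · rw [h0]; exact hTle
    · exact (hlt t ht.1 h0).le
  have hsp : ∀ t, spd L (φ t z) = 1 := fun t => by rw [Flw.spd_eq hg.smooth hφ, hs]
  have hη1 : ∀ t ∈ Icc 0 T, η (φ t z) = 1 := by
    intro t ht
    exact hη.one _ (hle t ht) (by rw [hsp]; norm_num)
  refine ⟨T, fun t => (φ t z).1, fun t => (φ t z).2, hTm.1, ⟨?_, ?_⟩, ?_, ?_, ?_⟩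
  · refine (geod_iff hg.smooth).2 ⟨?_, ?_, ?_⟩
    · intro t ht
      simpa [M] using hle t ht
    · intro t ht
      have h1 := (hφ.d1 t z).hasDerivWithinAt (s := Icc 0 T)
      rw [hη1 t ht, one_smul] at h1
      exact h1
    · intro t ht
      have h1 := (hφ.d2 t z).hasDerivWithinAt (s := Icc 0 T)
      rw [hη1 t ht, one_smul] at h1
      exact h1
  · intro t ht
    change gm (cG L) (φ t z).1 (φ t z).2 (φ t z).2 = 1
    rw [f14_spd_sq, hsp, one_pow]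
  · change (φ 0 z).1 = x
    rw [hφ.zero, hz1]
  · change (φ 0 z).2 = u
    rw [hφ.zero, hz2]
  · have h1 : ‖(φ T z).1‖ = 1 := le_antisymm hTle hTm.2
    simpa [bM] using h1

end WR
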