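import Pool.Agent.helper79.WR.Stmt
import Pool.Agent.helper79.WR.Defs
import Pool.Agent.helper71.SW.Defs

/-! # WR: the cut off geodesic flow: definitions -/

noncomputable section

namespace WR

open SN KBR Set Filter Topology
open scoped ContDiff RealInnerProductSpace

variable {n : ℕ}

/-- speed in the metric `e^{2L}|dx|²` -/
def spd (L : E n → ℝ) (p : E n × E n) : ℝ := Real.exp (L p.1) * ‖p.2‖

/-- vectors over the closed ball with speed in `[1/2, 2]` -/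
def KK (L : E n → ℝ) : Set (E n × E n) := {p | ‖p.1‖ ≤ 1 ∧ 1 / 2 ≤ spd L p ∧ spd L p ≤ 2}

/-- vectors with speed in `(1/2, 2)` -/
def UU (L : E n → ℝ) : Set (E n × E n) := {p | 1 / 2 < spd L p ∧ spd L p < 2}

/-- `η` is a cut off function -/
structure Cut (L : E n → ℝ) (η : E n × E n → ℝ) (r : ℝ) : Prop where
  smooth : ContDiff ℝ ∞ η
  cs : HasCompactSupport η
  nonneg : ∀ p, 0 ≤ η p
  even : ∀ x v, η (x, -v) = η (x, v)
  one : ∀ p : E n × E n, ‖p.1‖ ≤ 1 → spd L p ≤ 2 → η p = 1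
  r_lt : r < 1
  convex : ∀ p : E n × E n, r ≤ ‖p.1‖ → 0 ≤ η p * (1 + fderiv ℝ L p.1 p.1)

/-- `φ` is the flow of `η • (v, gacc L x v)` -/
structure Flw (L : E n → ℝ) (η : E n × E n → ℝ) (φ : ℝ → E n × E n → E n × E n) : Prop where
  smooth : ContDiff ℝ ∞ (fun p : ℝ × (E n × E n) => φ p.1 p.2)
  zero : ∀ z, φ 0 z = z
  add : ∀ s t z, φ (s + t) z = φ s (φ t z)
  rev : ∀ t x v, φ (-t) (x, -v) = ((φ t (x, v)).1, -(φ t (x, v)).2)
  d1 : ∀ t z, HasDerivAt (fun s => (φ s z).1) (η (φ t z) • (φ t z).2) t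
  d2 : ∀ t z, HasDerivAt (fun s => (φ s z).2) (η (φ t z) • gacc L (φ t z).1 (φ t z).2) t
  uniq : ∀ (T : ℝ) (c v : ℝ → E n), (∀ t ∈ Icc 0 T, η (c t, v t) = 1) →
    (∀ t ∈ Icc 0 T, HasDerivWithinAt c (v t) (Icc 0 T) t) →
    (∀ t ∈ Icc 0 T, HasDerivWithinAt v (gacc L (c t) (v t)) (Icc 0 T) t) →
    ∀ t ∈ Icc 0 T, φ t (c 0, v 0) = (c t, v t)

/-- the depth along the orbits -/
def Rf (ρ : E n → ℝ) (δ : ℝ) (φ : ℝ → E n × E n → E n × E n) (q : ℝ × (E n × E n)) : ℝ :=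
  ρ (φ q.1 q.2).1 / δ

/-- the phase along the orbits -/
def Pf (Φ : E n → ℝ) (φ : ℝ → E n × E n → E n × E n) (q : ℝ × (E n × E n)) : ℝ :=
  Φ (φ q.1 q.2).1

/-- the function -/
def ff (ρ Φ : E n → ℝ) (δ : ℝ) (x : E n) : ℝ := FF (ρ x / δ) (Φ x)

end WR
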