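import Pool.Agent.helper79.WR.F13
import Pool.Agent.helper79.WR.F14
import Pool.Agent.helper79.WR.F15

/-! WR-Fin: the theorem -/

noncomputable section

namespace WR

open SN KBR Set Filter Topology
open scoped ContDiff RealInnerProductSpace

variable {n : ℕ}

/-- the theorem, given the geometry -/
theorem main_of_geo (hn : 0 < n) {L ρ Φ : E n → ℝ} (hg : SW.Geo L ρ Φ) :
    ∃ (G : Fld n) (Γ : E n → E n → E n → E n) (w : E n × E n → ℝ) (f : E n → ℝ),
      Simple G Γ ∧ LenLtPi G ∧ NonTrap G ∧ NoConj G Γ ∧ Weight G w ∧ ContDiff ℝ ∞ f ∧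
      (∀ x ∈ bM n, f x = 0) ∧ (∃ x ∈ M n, f x ≠ 0) ∧
      ∀ T c v, 0 ≤ T → UGeo G T c v → c 0 ∈ bM n → c T ∈ bM n → rayInt w f T c v = 0 := by
  obtain ⟨w, f, h1, h2, h3, h4, ⟨x, hx, hfx⟩, h5⟩ := exists_weight hn hg
  have hU : ∀ T c v, UGeo (cG L) T c v → UGeod L T c v := by
    intro T c v h
    refine ⟨(geod_iff hg.good.smooth).1 h.toGeod, fun t ht => ?_⟩
    have h1 := h.unit t ht
    simp only [gm, cG, smul_apply, ContinuousLinearMap.id_apply,
      real_inner_smul_left, real_inner_self_eq_norm_sq] at h1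
    exact h1
  have hL := hg.good.smooth
  have hspd : ∀ p ∈ SMb (cG L), spd L p = 1 := by
    rintro p ⟨-, hp⟩
    simp only [gm, cG, smul_apply, ContinuousLinearMap.id_apply,
      real_inner_smul_left, real_inner_self_eq_norm_sq] at hp
    have h6 : (spd L p) ^ 2 = 1 := by
      unfold spd
      rw [mul_pow, ← Real.exp_nat_mul]
      push_cast
      exact hp
    have h7 : 0 ≤ spd L p := by unfold spd; positivity
    nlinarith [h6, h7]
  have hsub : SMb (cG L) ⊆ UU L := fun p hp => by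
    have := hspd p hp
    constructor <;> rw [this] <;> norm_num
  refine ⟨cG L, cGam L, w, f, ⟨cG_isMet hL, cGam_chr hL, convexBd_of hL hg.good.conv,
    exp_diffeo hg.good⟩, ?_, nonTrap hg.good, noConj hg.good,
    ⟨⟨UU L, isOpen_UU hL, hsub, h1⟩, fun p hp => h2 p (hsub hp)⟩, h3, ?_,
    ⟨x, by simpa [M] using hx, hfx⟩, ?_⟩
  · intro T c v h hu
    exact hg.good.len T c v (hU T c v ⟨h, hu⟩)
  · intro x hx
    have : ‖x‖ = 1 := by simpa [bM] using hx
    exact h4 x this.ge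
  · intro T c v hT hc h0 h1
    exact h5 T c v hT (hU T c v hc) (by simpa [bM] using h0) (by simpa [bM] using h1)

/-- the geometry (helper71) -/
theorem exists_geo' : ∃ L ρ Φ : E 3 → ℝ, SW.Geo L ρ Φ := by
  sorry

/-- the weighted geodesic ray transform is not injective on a simple three dimensional manifold -/
theorem main : ∃ (G : Fld 3) (Γ : E 3 → E 3 → E 3 → E 3) (w : E 3 × E 3 → ℝ) (f : E 3 → ℝ),
      Simple G Γ ∧ LenLtPi G ∧ NonTrap G ∧ NoConj G Γ ∧ Weight G w ∧ ContDiff ℝ ∞ f ∧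
      (∀ x ∈ bM 3, f x = 0) ∧ (∃ x ∈ M 3, f x ≠ 0) ∧
      ∀ T c v, 0 ≤ T → UGeo G T c v → c 0 ∈ bM 3 → c T ∈ bM 3 → rayInt w f T c v = 0 := by
  obtain ⟨L, ρ, Φ, hg⟩ := exists_geo'
  exact main_of_geo (by norm_num) hg

end WR
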